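import Pool.Agent.W823.QT.Stm

/-! # MP_26aa9e_pr, part QT-M2: second moment of the position -/

set_option autoImplicit false

namespace Pool.Agent.W155.QTM2

open MeasureTheory ProbabilityTheory Filter Topology Pool.Agent.W823.QT
open scoped ENNReal NNReal

variable {d : ℕ}

lemma arcs_zero : arcs 0 = ∅ := by decide

lemma arcs_one : arcs 1 = {((0, 1) : ℕ × ℕ)} := by decide

lemma aw_le {η : ℕ → (ℕ → Fin d → ℤ) → ℝ≥0∞} {ε : ℕ → ℝ≥0∞} (hle : ∀ k z, η k z ≤ ε k)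
    (a : ℕ → Fin d → ℤ) (e : ℕ × ℕ) : aw η a e ≤ lw ε e := hle _ _

lemma V_le {η : ℕ → (ℕ → Fin d → ℤ) → ℝ≥0∞} {ε : ℕ → ℝ≥0∞} (hle : ∀ k z, η k z ≤ ε k)
    (n : ℕ) (a : ℕ → Fin d → ℤ) : V η n a ≤ ∏ e ∈ arcs n, (1 + lw ε e) :=
  Finset.prod_le_prod' fun e _ => add_le_add le_rfl (aw_le hle a e)

lemma prod_ne_top {ε : ℕ → ℝ≥0∞} (hε : ∀ k, ε k ≠ ∞) (n : ℕ) :
    ∏ e ∈ arcs n, (1 + lw ε e) ≠ ∞ :=
  ENNReal.prod_ne_top fun _ _ => ENNReal.add_ne_top.2 ⟨ENNReal.one_ne_top, hε _⟩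

lemma prod_ne_zero {ε : ℕ → ℝ≥0∞} (n : ℕ) :
    ∏ e ∈ arcs n, (1 + lw ε e) ≠ 0 :=
  Finset.prod_ne_zero_iff.2 fun e _ => by simp

lemma sq_zero : W823.QT.sq 0 = 0 := by simp [W823.QT.sq]

lemma sqpos_le (a : ℕ → Fin d → ℤ) (i : Fin d) (n : ℕ) :
    W823.QT.sq (pos a n i) ≤ n * ∑ j ∈ Finset.range n, W823.QT.sq (a j i) := by
  unfold W823.QT.sq pos
  rw [← ENNReal.ofReal_sum_of_nonneg (fun j _ => by positivity), ← ENNReal.ofReal_natCast,
    ← ENNReal.ofReal_mul (by positivity)]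
  apply ENNReal.ofReal_le_ofReal
  have := sq_sum_le_card_mul_sum_sq (s := Finset.range n) (f := fun j => ((a j i : ℤ) : ℝ))
  simpa [Finset.sum_apply] using this

lemma lint_sq (q : Measure (Fin d → ℤ)) [IsProbabilityMeasure q] (i : Fin d) (j : ℕ) :
    ∫⁻ a, W823.QT.sq (a j i) ∂(iid q) = ∫⁻ x, W823.QT.sq (x i) ∂q := by
  have h := (measurePreserving_eval_infinitePi (fun _ : ℕ => q) j).lintegral_comp
    (f := fun x : Fin d → ℤ => W823.QT.sq (x i)) ((measurable_of_countable W823.QT.sq).comp (measurable_pi_apply i))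
  simpa [iid] using h

lemma meas_sq (i : Fin d) (j : ℕ) : Measurable fun a : ℕ → Fin d → ℤ => W823.QT.sq (a j i) :=
  (measurable_of_countable W823.QT.sq).comp ((measurable_pi_apply i).comp (measurable_pi_apply j))

lemma B_ne_top (q : Measure (Fin d → ℤ)) [IsProbabilityMeasure q]
    {η : ℕ → (ℕ → Fin d → ℤ) → ℝ≥0∞} {ε : ℕ → ℝ≥0∞} (hle : ∀ k z, η k z ≤ ε k)
    (hε : ∀ k, ε k ≠ ∞) (i : Fin d) (hs : ∫⁻ x, W823.QT.sq (x i) ∂q ≠ ∞) (n : ℕ) :
    ∫⁻ a, V η n a * W823.QT.sq (pos a n i) ∂(iid q) ≠ ∞ := by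
  have h1 : ∫⁻ a, V η n a * W823.QT.sq (pos a n i) ∂(iid q) ≤
      ∫⁻ a, (∏ e ∈ arcs n, (1 + lw ε e)) * (n * ∑ j ∈ Finset.range n, W823.QT.sq (a j i)) ∂(iid q) :=
    lintegral_mono fun a => mul_le_mul' (V_le hle n a) (sqpos_le a i n)
  refine ne_top_of_le_ne_top ?_ h1
  rw [lintegral_const_mul _ (by
      exact (Finset.measurable_sum _ fun j _ => meas_sq i j).const_mul _),
    lintegral_const_mul _ (Finset.measurable_sum _ fun j _ => meas_sq i j),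
    lintegral_finsetSum _ (fun j _ => meas_sq i j)]
  simp only [lint_sq, Finset.sum_const, Finset.card_range, nsmul_eq_mul]
  exact ENNReal.mul_ne_top (prod_ne_top hε n) (ENNReal.mul_ne_top (by simp)
    (ENNReal.mul_ne_top (by simp) hs))

lemma ind_mono {p q : Prop} (h : p → q) : ind p ≤ ind q := by
  unfold ind
  split_ifs with h1 h2
  · exact le_rfl
  · exact absurd (h h1) h2
  · exact zero_le_one
  · exact le_rfl

lemma irr_mono {l : ℕ} {S T : Finset (ℕ × ℕ)} (h : S ⊆ T) (hS : Irr l S) : Irr l T := by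
  intro v h0 hl
  obtain ⟨e, he, h1⟩ := hS v h0 hl
  exact ⟨e, h he, h1⟩

lemma kk_le (h2 : DOM_T) {η : ℕ → (ℕ → Fin d → ℤ) → ℝ≥0∞} {ε : ℕ → ℝ≥0∞}
    (hle : ∀ k z, η k z ≤ ε k) (hε : ∀ k, ε k ≠ ∞) (a : ℕ → Fin d → ℤ) (l : ℕ) :
    kk (aw η a) l ≤ EE ε l (fun S => ind (Irr l S)) * V η l a := by
  have h := h2 (arcs l) (aw η a) (lw ε) (fun e _ => aw_le hle a e) (fun e _ => hε _)
    (fun S => ind (Irr l S)) (fun S T hST => ind_mono (irr_mono hST))
  have hP0 := prod_ne_zero (ε := ε) l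
  have hP1 := prod_ne_top hε l
  change kk (aw η a) l * _ ≤ wsum (lw ε) l _ * V η l a at h
  unfold EE
  rw [div_eq_mul_inv, mul_right_comm, ← div_eq_mul_inv]
  exact (ENNReal.le_div_iff_mul_le (Or.inl hP0) (Or.inl hP1)).2 h

lemma irr_one (S : Finset (ℕ × ℕ)) : Irr 1 S := fun v h0 h1 => by omega

lemma kk_one (w : ℕ × ℕ → ℝ≥0∞) : kk w 1 = 1 + w (0, 1) := by
  unfold kk wsum
  rw [arcs_one]
  have : (({((0, 1) : ℕ × ℕ)} : Finset (ℕ × ℕ))).powerset = {∅, {((0, 1) : ℕ × ℕ)}} := by decide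
  rw [this, Finset.sum_pair (by decide)]
  simp [ind, irr_one]

lemma pos_one (a : ℕ → Fin d → ℤ) : pos a 1 = a 0 := by simp [pos]

lemma pos_zero (a : ℕ → Fin d → ℤ) : pos a 0 = 0 := by simp [pos]

lemma eps_one {ε : ℕ → ℝ≥0∞} (hs : Small ε) : ε 1 ≤ 1 / 8 := by
  have h := ENNReal.le_tsum (f := fun k : ℕ => (k : ℝ≥0∞) * ε k) 1
  simp only [Nat.cast_one, one_mul] at h
  exact h.trans hs.2

theorem main (_h1 : MEAS_T) (h2 : DOM_T) (h3 : RENB_T) (h4 : SOLVE_T) (h5 : IRS_T) (h6 : SUPA_T) :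
    M2_T := by
  intro d q _ hq η ε hL hS hle hsm i n
  obtain ⟨hV, hA1, hAt, hAA⟩ := h6 d q η ε hL hle hsm.1
  have hB0 : ∫⁻ a, V η 0 a * W823.QT.sq (pos a 0 i) ∂(iid q) = 0 := by
    simp [pos_zero, sq_zero]
  rcases Nat.eq_zero_or_pos n with rfl | hn
  · rw [hB0]; exact zero_le
  by_cases hs2 : ∫⁻ x, W823.QT.sq (x i) ∂q = ∞
  · rw [hs2]
    have hn0 : (3 : ℝ≥0∞) * n ≠ 0 := by
      simp; omega
    rw [ENNReal.mul_top hn0, ENNReal.top_mul (by
      have := hA1 n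
      intro h0
      rw [h0] at this
      exact absurd this (by simp))]
    exact le_top
  have hA0 : A q η 0 = 1 := by
    have : IsProbabilityMeasure (iid q) := by unfold iid; infer_instance
    simp [A, V, arcs_zero]
  have hmain := h4 (A q η) (fun n => ∫⁻ a, V η n a * W823.QT.sq (pos a n i) ∂(iid q))
    (fun l => ∫⁻ a, kk (aw η a) l ∂(iid q))
    (fun l => ∫⁻ a, kk (aw η a) l * W823.QT.sq (pos a l i) ∂(iid q))
    (fun l => EE ε l (fun S => ind (Irr l S)))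
    ((1 + ε 1) * ∫⁻ x, W823.QT.sq (x i) ∂q) hA0 hB0 hA1 hAt
    (fun n => B_ne_top q hle hsm.1 i hs2 n) hAA
    (fun n hn => (h3 d q hq η hL hS i n hn).1) (fun n hn => (h3 d q hq η hL hS i n hn).2)
    (fun l => by
      have hEt : EE ε l (fun S => ind (Irr l S)) ≠ ∞ := by
        unfold EE
        refine ENNReal.div_ne_top ?_ (prod_ne_zero l)
        unfold wsum
        refine ENNReal.sum_ne_top.2 fun S _ => ENNReal.mul_ne_top
          (ENNReal.prod_ne_top fun e _ => hsm.1 _) ?_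
        show ind (Irr l S) ≠ ∞
        unfold ind
        split_ifs <;> simp
      rw [← lintegral_const_mul' _ _ hEt]
      refine lintegral_mono fun a => ?_
      calc kk (aw η a) l * W823.QT.sq (pos a l i)
          ≤ EE ε l (fun S => ind (Irr l S)) * V η l a * W823.QT.sq (pos a l i) :=
            mul_le_mul' (kk_le h2 hle hsm.1 a l) le_rfl
        _ = _ := by ring)
    (by
      simp only [kk_one, pos_one]
      rw [← lint_sq q i 0, ← lintegral_const_mul' _ _ (by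
        exact ENNReal.add_ne_top.2 ⟨ENNReal.one_ne_top, hsm.1 1⟩)]
      refine lintegral_mono fun a => mul_le_mul' (add_le_add le_rfl ?_) le_rfl
      exact hle 1 _)
    (fun N => h5 ε hsm N) n
  refine hmain.trans ?_
  have h89 : (1 + ε 1 : ℝ≥0∞) ≤ 9 / 8 := by
    refine (add_le_add le_rfl (eps_one hsm)).trans (le_of_eq ?_)
    rw [← ENNReal.toReal_eq_toReal_iff' (by finiteness) (by finiteness)]
    rw [ENNReal.toReal_add (by finiteness) (by finiteness)]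
    simp
    norm_num
  have h3' : 2 * (1 + ε 1 : ℝ≥0∞) ≤ 3 := by
    refine (mul_le_mul' le_rfl h89).trans ?_
    rw [← ENNReal.toReal_le_toReal (by finiteness) (by finiteness)]
    simp
    norm_num
  calc 2 * (n : ℝ≥0∞) * ((1 + ε 1) * ∫⁻ x, W823.QT.sq (x i) ∂q) * A q η n
      = (2 * (1 + ε 1)) * (n * (∫⁻ x, W823.QT.sq (x i) ∂q) * A q η n) := by ring
    _ ≤ 3 * (n * (∫⁻ x, W823.QT.sq (x i) ∂q) * A q η n) := mul_le_mul' h3' le_rfl
    _ = _ := by ring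

end Pool.Agent.W155.QTM2
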