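import Mathlib

set_option autoImplicit false

namespace Pool.Agent.W155.CD

open Finset

section MS

variable {V : Type*} [Fintype V] [DecidableEq V]

/-- multilinear form attached to a weight on finite sets -/
noncomputable def Phi (a : Finset V → ℝ) (S : Finset V) (x : V → ℝ) : ℝ :=
  ∑ Q ∈ S.powerset, a Q * ∏ w ∈ Q, x w

lemma phi_restrict (a : Finset V → ℝ) (S : Finset V) (x : V → ℝ)
    (h : ∀ w, w ∉ S → x w = 0) : Phi a univ x = Phi a S x := by
  unfold Phi
  symm
  apply Finset.sum_subset (Finset.powerset_mono.2 (Finset.subset_univ S))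
  intro Q _ hQ
  rw [Finset.mem_powerset, Finset.not_subset] at hQ
  obtain ⟨w, hwQ, hwS⟩ := hQ
  rw [Finset.prod_eq_zero hwQ (h w hwS), mul_zero]

lemma phi_split (a : Finset V → ℝ) (T : Finset V) (u v : V) (huv : u ≠ v)
    (hu : u ∉ T) (hv : v ∉ T) (x : V → ℝ) :
    Phi a (insert u (insert v T)) x =
      (∑ R ∈ T.powerset, a R * ∏ w ∈ R, x w)
      + (∑ R ∈ T.powerset, a (insert v R) * ∏ w ∈ R, x w) * x v
      + (∑ R ∈ T.powerset, a (insert u R) * ∏ w ∈ R, x w) * x u
      + (∑ R ∈ T.powerset, a (insert u (insert v R)) * ∏ w ∈ R, x w) * (x u * x v) := by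
  unfold Phi
  have hu' : u ∉ insert v T := by
    simp [huv, hu]
  rw [Finset.sum_powerset_insert hu', Finset.sum_powerset_insert hv,
    Finset.sum_powerset_insert hv, Finset.sum_mul, Finset.sum_mul, Finset.sum_mul]
  have e1 : ∀ R ∈ T.powerset, a (insert v R) * ∏ w ∈ insert v R, x w
      = a (insert v R) * (∏ w ∈ R, x w) * x v := by
    intro R hR
    have : v ∉ R := fun h => hv (Finset.mem_powerset.1 hR h)
    rw [Finset.prod_insert this]; ring
  have e2 : ∀ R ∈ T.powerset, a (insert u R) * ∏ w ∈ insert u R, x w
      = a (insert u R) * (∏ w ∈ R, x w) * x u := by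
    intro R hR
    have : u ∉ R := fun h => hu (Finset.mem_powerset.1 hR h)
    rw [Finset.prod_insert this]; ring
  have e3 : ∀ R ∈ T.powerset, a (insert u (insert v R)) * ∏ w ∈ insert u (insert v R), x w
      = a (insert u (insert v R)) * (∏ w ∈ R, x w) * (x u * x v) := by
    intro R hR
    have h1 : v ∉ R := fun h => hv (Finset.mem_powerset.1 hR h)
    have h2 : u ∉ insert v R := by
      simp only [Finset.mem_insert, not_or]
      exact ⟨huv, fun h => hu (Finset.mem_powerset.1 hR h)⟩
    rw [Finset.prod_insert h2, Finset.prod_insert h1]; ring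
  rw [Finset.sum_congr rfl e1, Finset.sum_congr rfl e2, Finset.sum_congr rfl e3]
  ring

/-- interior maximum of a quadratic -/
lemma quad_max (L C p q : ℝ) (hp : 0 < p) (hq : 0 < q)
    (h : ∀ t : ℝ, -p ≤ t → t ≤ q → L * t - C * t ^ 2 ≤ 0) : L = 0 ∧ 0 ≤ C := by
  have hL : L = 0 := by
    by_contra hne
    set A := |C| + 1 with hA
    have hApos : 0 < A := by positivity
    rcases lt_or_gt_of_ne hne with hneg | hpos
    · -- L < 0 : take t negative
      set s := min p (-L / (2 * A)) with hs
      have hspos : 0 < s := lt_min hp (by apply div_pos <;> linarith)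
      have hsp : s ≤ p := min_le_left _ _
      have hs2 : s ≤ -L / (2 * A) := min_le_right _ _
      have h1 := h (-s) (by linarith) (by linarith)
      have h2 : s * (2 * A) ≤ -L := by
        rwa [le_div_iff₀ (by positivity)] at hs2
      have h3 : C ≤ A := by rw [hA]; linarith [le_abs_self C]
      nlinarith [mul_pos hspos hspos, mul_le_mul_of_nonneg_right h3 (le_of_lt (mul_pos hspos hspos)),
        mul_le_mul_of_nonneg_left h2 hspos.le, mul_pos hspos hApos]
    · set s := min q (L / (2 * A)) with hs
      have hspos : 0 < s := lt_min hq (by apply div_pos <;> linarith)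
      have hsp : s ≤ q := min_le_left _ _
      have hs2 : s ≤ L / (2 * A) := min_le_right _ _
      have h1 := h s (by linarith) (by linarith)
      have h2 : s * (2 * A) ≤ L := by
        rwa [le_div_iff₀ (by positivity)] at hs2
      have h3 : C ≤ A := by rw [hA]; linarith [le_abs_self C]
      nlinarith [mul_pos hspos hspos, mul_le_mul_of_nonneg_right h3 (le_of_lt (mul_pos hspos hspos)),
        mul_le_mul_of_nonneg_left h2 hspos.le, mul_pos hspos hApos]
  refine ⟨hL, ?_⟩
  subst hL
  have h1 := h q (by linarith) le_rfl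
  by_contra hC
  push Not at hC
  nlinarith [mul_pos hq hq]

/-- weighted Motzkin-Straus: the form of a clique weight is bounded on the simplex by its value
at the barycentre of some complete graph -/
theorem motzkin_straus [Nonempty V] (G : SimpleGraph V) (α : ℕ → ℝ)
    (a : Finset V → ℝ) (ha : ∀ Q : Finset V, G.IsClique (Q : Set V) → a Q = α Q.card)
    (ha' : ∀ Q : Finset V, ¬ G.IsClique (Q : Set V) → a Q = 0)
    (x : V → ℝ) (hx : x ∈ stdSimplex ℝ V) :
    ∃ k : ℕ, 0 < k ∧ Phi a univ x ≤
      ∑ j ∈ Finset.range (k + 1), (k.choose j : ℝ) * (α j * (1 / (k : ℝ)) ^ j) := by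
  classical
  have hcont : Continuous (fun y : V → ℝ => Phi a univ y) := by
    unfold Phi
    fun_prop
  obtain ⟨y0, hy0, hmax0⟩ := (isCompact_stdSimplex ℝ V).exists_isMaxOn ⟨x, hx⟩ hcont.continuousOn
  let P : ℕ → Prop := fun n => ∃ y ∈ stdSimplex ℝ V,
    IsMaxOn (fun y : V → ℝ => Phi a univ y) (stdSimplex ℝ V) y ∧
      (Finset.univ.filter (fun w => y w ≠ 0)).card = n
  have hP : ∃ n, P n := ⟨_, y0, hy0, hmax0, rfl⟩
  obtain ⟨y, hy, hmax, hcard⟩ := Nat.find_spec hP
  have hmin : ∀ z ∈ stdSimplex ℝ V, IsMaxOn (fun y : V → ℝ => Phi a univ y) (stdSimplex ℝ V) z →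
      (Finset.univ.filter (fun w => y w ≠ 0)).card ≤ (Finset.univ.filter (fun w => z w ≠ 0)).card := by
    intro z hz hzm
    rw [hcard]
    exact Nat.find_min' hP ⟨z, hz, hzm, rfl⟩
  set S : Finset V := Finset.univ.filter (fun w => y w ≠ 0) with hS
  have hyS : ∀ w, w ∉ S → y w = 0 := by
    intro w hw
    by_contra h
    exact hw (by simp [hS, h])
  have hypos : ∀ w ∈ S, 0 < y w := by
    intro w hw
    have h1 : y w ≠ 0 := by simpa [hS] using hw
    exact lt_of_le_of_ne (hy.1 w) (Ne.symm h1)
  -- key local analysis
  have key : ∀ u ∈ S, ∀ v ∈ S, u ≠ v →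
      (∑ R ∈ ((S.erase u).erase v).powerset,
          a (insert u R) * ∏ w ∈ R, y w) - (∑ R ∈ ((S.erase u).erase v).powerset,
          a (insert v R) * ∏ w ∈ R, y w) +
        (∑ R ∈ ((S.erase u).erase v).powerset,
          a (insert u (insert v R)) * ∏ w ∈ R, y w) * (y v - y u) = 0 ∧
        (∑ R ∈ ((S.erase u).erase v).powerset,
          a (insert u (insert v R)) * ∏ w ∈ R, y w) ≠ 0 := by
    intro u hu v hv huv
    set T := (S.erase u).erase v with hT
    have huT : u ∉ T := by simp [hT]
    have hvT : v ∉ T := by simp [hT]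
    have hST : S = insert u (insert v T) := by
      rw [hT, Finset.insert_erase (by simp [hv, huv.symm] : v ∈ S.erase u), Finset.insert_erase hu]
    -- perturbation
    set z : ℝ → V → ℝ := fun t => Function.update (Function.update y u (y u + t)) v (y v - t) with hz
    have zu : ∀ t, z t u = y u + t := by
      intro t; simp [hz, huv]
    have zv : ∀ t, z t v = y v - t := by
      intro t; simp [hz]
    have zo : ∀ t w, w ≠ u → w ≠ v → z t w = y w := by
      intro t w h1 h2; simp [hz, h1, h2]
    have zT : ∀ t, ∀ R ∈ T.powerset, ∏ w ∈ R, z t w = ∏ w ∈ R, y w := by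
      intro t R hR
      apply Finset.prod_congr rfl
      intro w hw
      have hwT := Finset.mem_powerset.1 hR hw
      exact zo t w (fun h => huT (h ▸ hwT)) (fun h => hvT (h ▸ hwT))
    have zsimp : ∀ t, -(y u) ≤ t → t ≤ y v → z t ∈ stdSimplex ℝ V := by
      intro t h1 h2
      refine ⟨?_, ?_⟩
      · intro w
        by_cases hwu : w = u
        · subst hwu; rw [zu]; linarith
        · by_cases hwv : w = v
          · subst hwv; rw [zv]; linarith
          · rw [zo t w hwu hwv]; exact hy.1 w
      · have hsum := hy.2
        have e : ∀ f : V → ℝ, ∑ w, f w = f u + (f v + ∑ w ∈ (Finset.univ.erase u).erase v, f w) := by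
          intro f
          rw [Finset.add_sum_erase (Finset.univ.erase u) f (by simp [huv.symm]),
            Finset.add_sum_erase Finset.univ f (Finset.mem_univ u)]
        rw [e] at hsum ⊢
        rw [zu, zv]
        have : ∑ w ∈ (Finset.univ.erase u).erase v, z t w =
            ∑ w ∈ (Finset.univ.erase u).erase v, y w := by
          apply Finset.sum_congr rfl
          intro w hw
          simp only [Finset.mem_erase, Finset.mem_univ, and_true] at hw
          exact zo t w hw.2 hw.1
        rw [this]; linarith
    have zS : ∀ t w, w ∉ S → z t w = 0 := by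
      intro t w hw
      rw [zo t w (fun h => hw (h ▸ hu)) (fun h => hw (h ▸ hv))]
      exact hyS w hw
    set A0 := ∑ R ∈ T.powerset, a R * ∏ w ∈ R, y w with hA0
    set Av := ∑ R ∈ T.powerset, a (insert v R) * ∏ w ∈ R, y w with hAv
    set Au := ∑ R ∈ T.powerset, a (insert u R) * ∏ w ∈ R, y w with hAu
    set C := ∑ R ∈ T.powerset, a (insert u (insert v R)) * ∏ w ∈ R, y w with hC
    have hF : ∀ t, Phi a univ (z t) = A0 + Av * (y v - t) + Au * (y u + t)
        + C * ((y u + t) * (y v - t)) := by
      intro t
      rw [phi_restrict a S (z t) (zS t), hST, phi_split a T u v huv huT hvT (z t), zu, zv]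
      rw [hA0, hAv, hAu, hC]
      congr 1
      · congr 1
        · congr 1
          · exact Finset.sum_congr rfl (fun R hR => by rw [zT t R hR])
          · congr 1
            exact Finset.sum_congr rfl (fun R hR => by rw [zT t R hR])
        · congr 1
          exact Finset.sum_congr rfl (fun R hR => by rw [zT t R hR])
      · congr 1
        exact Finset.sum_congr rfl (fun R hR => by rw [zT t R hR])
    have z0 : z 0 = y := by
      funext w
      by_cases hwu : w = u
      · subst hwu; rw [zu]; ring
      · by_cases hwv : w = v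
        · subst hwv; rw [zv]; ring
        · exact zo 0 w hwu hwv
    have hFy : Phi a univ y = A0 + Av * y v + Au * y u + C * (y u * y v) := by
      have := hF 0
      rw [z0] at this
      rw [this]; ring
    have hq : ∀ t : ℝ, -(y u) ≤ t → t ≤ y v →
        (Au - Av + C * (y v - y u)) * t - C * t ^ 2 ≤ 0 := by
      intro t h1 h2
      have := hmax (zsimp t h1 h2)
      simp only [Set.mem_ofPred_eq] at this
      rw [hF t, hFy] at this
      nlinarith [this]
    obtain ⟨hL, hC0⟩ := quad_max _ _ _ _ (hypos u hu) (hypos v hv) hq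
    refine ⟨hL, ?_⟩
    intro hCz
    -- move to endpoint
    have hzmax : IsMaxOn (fun y : V → ℝ => Phi a univ y) (stdSimplex ℝ V) (z (y v)) := by
      intro w hw
      have h1 := hmax hw
      simp only [Set.mem_ofPred_eq] at h1 ⊢
      have h2 : Phi a univ (z (y v)) = Phi a univ y := by
        rw [hF, hFy, hCz]
        rw [hCz] at hL
        have : Au = Av := by linarith
        rw [this]; ring
      rw [h2]; exact h1
    have hlt := hmin (z (y v)) (zsimp _ (by linarith [hypos u hu, hypos v hv]) le_rfl) hzmax
    have hsub : (Finset.univ.filter (fun w => z (y v) w ≠ 0)) ⊆ S.erase v := by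
      intro w hw
      simp only [Finset.mem_filter, Finset.mem_univ, true_and] at hw
      rw [Finset.mem_erase]
      refine ⟨?_, ?_⟩
      · intro h; subst h; apply hw; rw [zv]; ring
      · by_contra h; exact hw (zS _ w h)
    have := Finset.card_le_card hsub
    rw [Finset.card_erase_of_mem hv] at this
    have hpos : 0 < S.card := Finset.card_pos.2 ⟨v, hv⟩
    omega
  -- S is a clique
  have hclique : G.IsClique (S : Set V) := by
    intro u hu v hv huv
    by_contra hnadj
    apply (key u hu v hv huv).2
    apply Finset.sum_eq_zero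
    intro R _
    rw [ha', zero_mul]
    intro hcl
    exact hnadj (hcl (by simp) (by simp) huv)
  have hsubcl : ∀ Q : Finset V, Q ⊆ S → a Q = α Q.card := by
    intro Q hQ
    exact ha Q (hclique.subset (by exact_mod_cast hQ))
  have heq : ∀ u ∈ S, ∀ v ∈ S, y u = y v := by
    intro u hu v hv
    by_cases huv : u = v
    · rw [huv]
    obtain ⟨h1, h2⟩ := key u hu v hv huv
    have h3 : (∑ R ∈ ((S.erase u).erase v).powerset, a (insert u R) * ∏ w ∈ R, y w) =
        ∑ R ∈ ((S.erase u).erase v).powerset, a (insert v R) * ∏ w ∈ R, y w := by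
      apply Finset.sum_congr rfl
      intro R hR
      have hRT := Finset.mem_powerset.1 hR
      have hRS : R ⊆ S := fun w hw => (Finset.mem_of_mem_erase (Finset.mem_of_mem_erase (hRT hw)))
      have huR : u ∉ R := fun h => by
        have := hRT h
        simp at this
      have hvR : v ∉ R := fun h => by
        have := hRT h
        simp at this
      rw [hsubcl _ (Finset.insert_subset hu hRS), hsubcl _ (Finset.insert_subset hv hRS),
        Finset.card_insert_of_notMem huR, Finset.card_insert_of_notMem hvR]
    rw [h3, sub_self, zero_add] at h1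
    rcases mul_eq_zero.1 h1 with h | h
    · exact absurd h h2
    · linarith
  have hSne : S.Nonempty := by
    by_contra h
    rw [Finset.not_nonempty_iff_eq_empty] at h
    have h1 := hy.2
    have : ∑ w, y w = 0 := Finset.sum_eq_zero (fun w _ => hyS w (by rw [h]; simp))
    linarith
  have hkpos : 0 < S.card := Finset.card_pos.2 hSne
  have hk0 : (S.card : ℝ) ≠ 0 := by positivity
  have hval : ∀ w ∈ S, y w = 1 / (S.card : ℝ) := by
    intro w hw
    have h1 := hy.2
    have h2 : ∑ v, y v = ∑ v ∈ S, y v := by
      symm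
      exact Finset.sum_subset (Finset.subset_univ S) (fun v _ hv => hyS v hv)
    rw [h2, Finset.sum_congr rfl (fun v hv => heq v hv w hw), Finset.sum_const, nsmul_eq_mul] at h1
    field_simp
    linarith
  refine ⟨S.card, hkpos, ?_⟩
  have h1 := hmax hx
  simp only [Set.mem_ofPred_eq] at h1
  refine h1.trans ?_
  rw [phi_restrict a S y hyS]
  unfold Phi
  have h2 : ∀ Q ∈ S.powerset, a Q * ∏ w ∈ Q, y w = (fun j : ℕ => α j * (1 / (S.card : ℝ)) ^ j) Q.card := by
    intro Q hQ
    have hQS := Finset.mem_powerset.1 hQ
    rw [hsubcl Q hQS, Finset.prod_congr rfl (fun w hw => hval w (hQS hw)), Finset.prod_const]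
  rw [Finset.sum_congr rfl h2,
    Finset.sum_powerset_apply_card (fun j : ℕ => α j * (1 / (S.card : ℝ)) ^ j)]
  simp only [nsmul_eq_mul]
  exact le_rfl

end MS

theorem compact_hull {E : Type*} [NormedAddCommGroup E] [NormedSpace ℝ E]
    [FiniteDimensional ℝ E] {s : Set E} (hs : IsCompact s) : IsCompact (convexHull ℝ s) := by
  classical
  rcases s.eq_empty_or_nonempty with rfl | ⟨x0, hx0⟩
  · rw [convexHull_empty]
    exact isCompact_empty
  obtain ⟨n, hn⟩ : ∃ n, n = Module.finrank ℝ E + 1 := ⟨_, rfl⟩
  have hK : IsCompact ((stdSimplex ℝ (Fin n)) ×ˢ (Set.pi Set.univ (fun _ : Fin n => s))) :=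
    (isCompact_stdSimplex ℝ (Fin n)).prod (isCompact_univ_pi fun _ => hs)
  have hcont : Continuous (fun p : (Fin n → ℝ) × (Fin n → E) => ∑ i, p.1 i • p.2 i) := by
    refine continuous_finsetSum _ fun i _ => ?_
    exact ((continuous_apply i).comp continuous_fst).smul ((continuous_apply i).comp continuous_snd)
  have heq : convexHull ℝ s = (fun p : (Fin n → ℝ) × (Fin n → E) => ∑ i, p.1 i • p.2 i) ''
      ((stdSimplex ℝ (Fin n)) ×ˢ (Set.pi Set.univ (fun _ : Fin n => s))) := by
    apply Set.Subset.antisymm
    · intro x hx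
      obtain ⟨ι, hι, z, w, hz, hai, hw0, hw1, hwz⟩ := eq_pos_convex_span_of_mem_convexHull hx
      have hcard : Fintype.card ι ≤ Fintype.card (Fin n) := by
        have h1 := hai.card_le_finrank_succ
        have h2 := Submodule.finrank_le (vectorSpan ℝ (Set.range z))
        rw [Fintype.card_fin, hn]
        omega
      obtain ⟨e⟩ := Function.Embedding.nonempty_of_card_le hcard
      refine ⟨(Function.extend e w 0, Function.extend e z (fun _ => x0)), ⟨⟨?_, ?_⟩, ?_⟩, ?_⟩
      · intro j
        show (0 : ℝ) ≤ Function.extend e w 0 j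
        by_cases hj : ∃ i, e i = j
        · obtain ⟨i, rfl⟩ := hj
          rw [e.injective.extend_apply]
          exact (hw0 i).le
        · rw [Function.extend_apply' _ _ _ hj]
          exact le_rfl
      · rw [← hw1]
        symm
        refine Fintype.sum_of_injective e e.injective _ _ ?_ ?_
        · intro j hj
          show Function.extend e w 0 j = 0
          rw [Function.extend_apply' _ _ _ hj]
          rfl
        · intro i
          show w i = Function.extend e w 0 (e i)
          rw [e.injective.extend_apply]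
      · intro j _
        by_cases hj : ∃ i, e i = j
        · obtain ⟨i, rfl⟩ := hj
          show Function.extend e z (fun _ => x0) (e i) ∈ s
          rw [e.injective.extend_apply]
          exact hz ⟨i, rfl⟩
        · show Function.extend e z (fun _ => x0) j ∈ s
          rw [Function.extend_apply' _ _ _ hj]
          exact hx0
      · rw [← hwz]
        symm
        refine Fintype.sum_of_injective e e.injective _ _ ?_ ?_
        · intro j hj
          show Function.extend e w 0 j • Function.extend e z (fun _ => x0) j = 0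
          rw [Function.extend_apply' w _ _ hj]
          simp
        · intro i
          show w i • z i = Function.extend e w 0 (e i) • Function.extend e z (fun _ => x0) (e i)
          rw [e.injective.extend_apply, e.injective.extend_apply]
    · rintro _ ⟨⟨w, z⟩, ⟨⟨hw0, hw1⟩, hz⟩, rfl⟩
      refine (convex_convexHull ℝ s).sum_mem (fun i _ => hw0 i) hw1 (fun i _ => ?_)
      exact subset_convexHull ℝ s (hz i (Set.mem_univ i))
  rw [heq]
  exact hK.image hcont

/-- falling factorial ratio as a product -/
lemma desc_ratio (K e : ℕ) (hK : 0 < K) :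
    (K.descFactorial e : ℝ) / (K : ℝ) ^ e = ∏ j ∈ Finset.range e, (1 - (j : ℝ) / K) := by
  have hK0 : (K : ℝ) ≠ 0 := by positivity
  induction e with
  | zero => simp
  | succ e ih =>
    rw [Finset.prod_range_succ, ← ih, Nat.descFactorial_succ]
    by_cases h : e ≤ K
    · push_cast [Nat.cast_sub h]
      field_simp
      ring
    · have h0 : K.descFactorial e = 0 := Nat.descFactorial_eq_zero_iff_lt.2 (by omega)
      rw [h0]; simp

lemma desc_ratio' (K e : ℕ) (hK : 0 < K) (he : 0 < e) :
    (K.descFactorial e : ℝ) / (K : ℝ) ^ e = ∏ j ∈ Finset.Ico 1 e, (1 - (j : ℝ) / K) := by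
  rw [desc_ratio K e hK, Finset.range_eq_Ico, Finset.prod_eq_prod_Ico_succ_bot he]
  simp

/-- number of maps injective on a given set -/
lemma card_injOn (N K : ℕ) (Q : Finset (Fin N)) :
    (Finset.univ.filter (fun φ : Fin N → Fin K => Set.InjOn φ (Q : Set (Fin N)))).card
      = K.descFactorial Q.card * K ^ (N - Q.card) := by
  classical
  let E := Equiv.piEquivPiSubtypeProd (fun x : Fin N => x ∈ Q) (fun _ => Fin K)
  have h1 : (Finset.univ.filter (fun φ : Fin N → Fin K => Set.InjOn φ (Q : Set (Fin N)))).card
      = ((Finset.univ.filter (fun g : ({x : Fin N // x ∈ Q} → Fin K) => Function.Injective g)) ×ˢ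
          (Finset.univ : Finset ({x : Fin N // ¬ x ∈ Q} → Fin K))).card := by
    apply Finset.card_equiv E
    intro φ
    simp only [Finset.mem_filter, Finset.mem_univ, true_and, Finset.mem_product, and_true]
    constructor
    · intro h x y hxy
      have := h (by exact_mod_cast x.2) (by exact_mod_cast y.2) hxy
      exact Subtype.ext this
    · intro h x hx y hy hxy
      have := @h ⟨x, by exact_mod_cast hx⟩ ⟨y, by exact_mod_cast hy⟩ hxy
      exact congrArg Subtype.val this
  rw [h1, Finset.card_product]
  congr 1
  · rw [← Fintype.card_subtype, Fintype.card_congr (Equiv.subtypeInjectiveEquivEmbedding _ _),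
      Fintype.card_embedding_eq]
    simp
  · rw [Finset.card_univ, Fintype.card_fun, Fintype.card_fin, Fintype.card_subtype_compl]
    simp

/-- pullback of the complete graph -/
def pull {N K : ℕ} (φ : Fin N → Fin K) : SimpleGraph (Fin N) where
  Adj u v := φ u ≠ φ v
  symm := ⟨fun _ _ h => Ne.symm h⟩
  loopless := ⟨fun _ h => h rfl⟩

lemma pull_clique {N K : ℕ} (φ : Fin N → Fin K) (Q : Finset (Fin N)) :
    (pull φ).IsClique (Q : Set (Fin N)) ↔ Set.InjOn φ (Q : Set (Fin N)) := by
  constructor
  · intro h x hx y hy hxy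
    by_contra hne
    exact h hx hy hne hxy
  · intro h x hx y hy hne hxy
    exact hne (h hx hy hxy)

end Pool.Agent.W155.CD
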