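import Mathlib

set_option autoImplicit false

namespace Pool.Agent.W155.HalfSets

open Finset

/-- the number of edges of `G` with both ends in `S` -/
noncomputable def spanned {V : Type*} (G : SimpleGraph V) (S : Finset V) : ℕ :=
  (G.induce (S : Set V)).edgeSet.ncard

/-- `b_t(n)`: the least number of edges spanned by a set of `⌊n/2⌋` vertices of the Turán graph
`T_{t-1}(n)` -/
noncomputable def turanHalf (t n : ℕ) : ℕ :=
  sInf {m | ∃ S : Finset (Fin n), S.card = n / 2 ∧ spanned (SimpleGraph.turanGraph n (t - 1)) S = m}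

section General

variable {V : Type*}

open Classical in
lemma two_mul_spanned (G : SimpleGraph V) (S : Finset V) :
    2 * spanned G S = ((S ×ˢ S).filter (fun p => G.Adj p.1 p.2)).card := by
  unfold spanned
  have h1 : (G.induce (S : Set V)).edgeSet.ncard = (G.induce (S : Set V)).edgeFinset.card := by
    rw [← SimpleGraph.coe_edgeFinset, Set.ncard_coe_finset]
  rw [h1, SimpleGraph.two_mul_card_edgeFinset]
  refine Finset.card_bij (fun p _ => ((p.1 : V), (p.2 : V))) ?_ ?_ ?_
  · rintro ⟨⟨x, hx⟩, ⟨y, hy⟩⟩ h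
    simp only [mem_filter, mem_univ, true_and] at h
    simp only [mem_filter, mem_product]
    exact ⟨⟨by simpa using hx, by simpa using hy⟩, by simpa using h⟩
  · rintro ⟨⟨x, hx⟩, ⟨y, hy⟩⟩ _ ⟨⟨x', hx'⟩, ⟨y', hy'⟩⟩ _ h
    simp only [Prod.mk.injEq] at h
    obtain ⟨rfl, rfl⟩ := h
    rfl
  · rintro ⟨x, y⟩ h
    simp only [mem_filter, mem_product] at h
    exact ⟨(⟨x, by simpa using h.1.1⟩, ⟨y, by simpa using h.1.2⟩), by simpa using h.2, rfl⟩

lemma spanned_comap {W : Type*} (G : SimpleGraph V) (e : W ≃ V) (S : Finset W) :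
    spanned (G.comap e) S = spanned G (S.map e.toEmbedding) := by
  classical
  have h1 := two_mul_spanned (G.comap e) S
  have h2 := two_mul_spanned G (S.map e.toEmbedding)
  have h3 : ((S ×ˢ S).filter (fun p => (G.comap e).Adj p.1 p.2)).card =
      ((S.map e.toEmbedding ×ˢ S.map e.toEmbedding).filter (fun p => G.Adj p.1 p.2)).card := by
    refine Finset.card_bij (fun p _ => (e p.1, e p.2)) ?_ ?_ ?_
    · rintro ⟨x, y⟩ h
      simp only [mem_filter, mem_product, SimpleGraph.comap_adj] at h
      simp only [mem_filter, mem_product]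
      refine ⟨⟨?_, ?_⟩, h.2⟩
      · exact Finset.mem_map_of_mem e.toEmbedding h.1.1
      · exact Finset.mem_map_of_mem e.toEmbedding h.1.2
    · rintro ⟨x, y⟩ _ ⟨x', y'⟩ _ h
      simp only [Prod.mk.injEq, EmbeddingLike.apply_eq_iff_eq] at h
      obtain ⟨rfl, rfl⟩ := h
      rfl
    · rintro ⟨x, y⟩ h
      simp only [mem_filter, mem_product, Finset.mem_map, Equiv.coe_toEmbedding] at h
      obtain ⟨⟨⟨x', hx', rfl⟩, ⟨y', hy', rfl⟩⟩, h3⟩ := h
      exact ⟨(x', y'), by simp [hx', hy', h3], rfl⟩
  have h4 : 2 * spanned (G.comap e) S = 2 * spanned G (S.map e.toEmbedding) := by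
    rw [h1, h2]
    convert h3
  omega

end General

/-! ### The complement graph `H`: `k` triangles and a cycle of length `L` -/

abbrev Vtx (k L : ℕ) := (Fin k × ZMod 3) ⊕ ZMod L

/-- neighbours in `H` -/
def adjH (k L : ℕ) : Vtx k L → Vtx k L → Prop
  | .inl (i, a), .inl (j, b) => i = j ∧ a ≠ b
  | .inr a, .inr b => b = a + 1 ∨ a = b + 1
  | _, _ => False

lemma adjH_symm {k L : ℕ} {x y : Vtx k L} (h : adjH k L x y) : adjH k L y x := by
  match x, y, h with
  | .inl (i, a), .inl (j, b), h => exact ⟨h.1.symm, h.2.symm⟩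
  | .inr a, .inr b, h => exact h.symm

/-- the graph `G`, the complement of `H` -/
def gr (k L : ℕ) : SimpleGraph (Vtx k L) where
  Adj x y := x ≠ y ∧ ¬ adjH k L x y
  symm := ⟨fun _ _ h => ⟨h.1.symm, fun h' => h.2 (adjH_symm h')⟩⟩
  loopless := ⟨fun _ h => h.1 rfl⟩

lemma gr_cliqueFree {k L : ℕ} [NeZero L] (hL : Odd L) (hL3 : 3 ≤ L) {r : ℕ}
    (hr : k + (L - 1) / 2 < r) : (gr k L).CliqueFree r := by
  classical
  intro T hT
  have hclique := hT.isClique
  have hcard := hT.card_eq
  -- the part in the triangles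
  set T1 : Finset (Fin k × ZMod 3) := T.toLeft with hT1
  set T2 : Finset (ZMod L) := T.toRight with hT2
  have hsum : T1.card + T2.card = r := by
    rw [← hcard, hT1, hT2, Finset.card_toLeft_add_card_toRight]
  have h1 : T1.card ≤ k := by
    have : T1.card ≤ (Finset.univ : Finset (Fin k)).card := by
      refine Finset.card_le_card_of_injOn Prod.fst (fun _ _ => by simp) ?_
      rintro ⟨i, a⟩ ha ⟨j, b⟩ hb hij
      simp only at hij
      subst hij
      have ha' : Sum.inl (i, a) ∈ T := by simpa [hT1] using ha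
      have hb' : Sum.inl (i, b) ∈ T := by simpa [hT1] using hb
      by_contra hne
      have hne' : (Sum.inl (i, a) : Vtx k L) ≠ Sum.inl (i, b) := by
        intro h; exact hne (Sum.inl.inj h)
      have := hclique ha' hb' hne'
      apply this.2
      refine ⟨rfl, ?_⟩
      intro hab
      exact hne (by rw [hab])
    simpa using this
  have h2 : 2 * T2.card ≤ L := by
    have hdisj : Disjoint T2 (T2.image (· + 1)) := by
      rw [Finset.disjoint_left]
      intro a ha hb
      obtain ⟨b, hb, rfl⟩ := Finset.mem_image.1 hb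
      have ha' : Sum.inr (b + 1) ∈ T := by simpa [hT2] using ha
      have hb' : Sum.inr b ∈ T := by simpa [hT2] using hb
      have hne : (Sum.inr b : Vtx k L) ≠ Sum.inr (b + 1) := by
        intro h
        have h' := Sum.inr.inj h
        have : (1 : ZMod L) = 0 := by
          have := congrArg (· - b) h'
          simpa using this.symm
        have hf : Fact (1 < L) := ⟨by omega⟩
        exact one_ne_zero this
      have := hclique hb' ha' hne
      exact this.2 (Or.inl rfl)
    have hc : (T2.image (· + 1)).card = T2.card :=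
      Finset.card_image_of_injective _ (add_left_injective 1)
    have := Finset.card_le_univ (T2 ∪ T2.image (· + 1))
    rw [Finset.card_union_of_disjoint hdisj, hc, ZMod.card] at this
    omega
  obtain ⟨m, rfl⟩ := hL
  omega

open Classical in
/-- each set which is not a union of components of `H` has fewer `H`-pairs than `2 |S|` -/
lemma hpairs_lt {k L : ℕ} [NeZero L] (S : Finset (Vtx k L)) (hS1 : 3 * k < S.card)
    (hS2 : S.card < L) :
    ((S ×ˢ S).filter (fun p => adjH k L p.1 p.2)).card < 2 * S.card := by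
  -- every vertex has at most two neighbours
  have hsum : ((S ×ˢ S).filter (fun p => adjH k L p.1 p.2)).card =
      ∑ x ∈ S, (S.filter (adjH k L x)).card := by
    rw [Finset.card_filter, Finset.sum_product]
    refine Finset.sum_congr rfl fun x _ => ?_
    rw [Finset.card_filter]
  have hnb : ∀ x : Vtx k L, ∃ A : Finset (Vtx k L), A.card ≤ 2 ∧ ∀ y, adjH k L x y → y ∈ A := by
    rintro (⟨i, a⟩ | a)
    · refine ⟨{Sum.inl (i, a + 1), Sum.inl (i, a + 2)}, Finset.card_le_two, ?_⟩
      rintro (⟨j, b⟩ | b) h
      · obtain ⟨rfl, h⟩ := h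
        have : b = a + 1 ∨ b = a + 2 := by
          revert h; revert a b; decide
        rcases this with rfl | rfl <;> simp
      · exact h.elim
    · refine ⟨{Sum.inr (a + 1), Sum.inr (a - 1)}, Finset.card_le_two, ?_⟩
      rintro (⟨j, b⟩ | b) h
      · exact h.elim
      · rcases h with rfl | h
        · simp
        · have : b = a - 1 := by rw [h]; ring
          rw [this]; simp
  have hdeg : ∀ x ∈ S, (S.filter (adjH k L x)).card ≤ 2 := by
    intro x _
    obtain ⟨A, hA, hA'⟩ := hnb x
    refine le_trans (Finset.card_le_card ?_) hA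
    intro y hy
    exact hA' y (Finset.mem_filter.1 hy).2
  rw [hsum]
  by_contra hcon
  push Not at hcon
  have hall : ∀ x ∈ S, (S.filter (adjH k L x)).card = 2 := by
    by_contra hne
    push Not at hne
    obtain ⟨x, hx, hx2⟩ := hne
    have hlt : (S.filter (adjH k L x)).card < 2 := lt_of_le_of_ne (hdeg x hx) hx2
    have : ∑ x ∈ S, (S.filter (adjH k L x)).card < ∑ x ∈ S, 2 :=
      Finset.sum_lt_sum hdeg ⟨x, hx, hlt⟩
    rw [Finset.sum_const, smul_eq_mul] at this
    omega
  by_cases hr : ∃ a : ZMod L, Sum.inr a ∈ S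
  · -- then the long cycle is contained in `S`
    obtain ⟨a, ha⟩ := hr
    have hstep : ∀ b : ZMod L, Sum.inr b ∈ S → Sum.inr (b + 1) ∈ S := by
      intro b hb
      have h2 := hall _ hb
      by_contra hnot
      have hsub : S.filter (adjH k L (Sum.inr b)) ⊆ {Sum.inr (b - 1)} := by
        rintro (⟨j, c⟩ | c) hc
        · exact ((Finset.mem_filter.1 hc).2).elim
        · obtain ⟨hcS, hc⟩ := Finset.mem_filter.1 hc
          rcases hc with rfl | hc
          · exact (hnot hcS).elim
          · have : c = b - 1 := by rw [hc]; ring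
            rw [this]; simp
      have := Finset.card_le_card hsub
      rw [h2, Finset.card_singleton] at this
      omega
    have hall' : ∀ n : ℕ, Sum.inr (a + (n : ZMod L)) ∈ S := by
      intro n
      induction n with
      | zero => simpa using ha
      | succ n ih =>
        have := hstep _ ih
        rw [add_assoc] at this
        rw [Nat.cast_succ]
        exact this
    have hsub : (Finset.univ : Finset (ZMod L)).image (Sum.inr : ZMod L → Vtx k L) ⊆ S := by
      intro y hy
      obtain ⟨c, _, rfl⟩ := Finset.mem_image.1 hy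
      have := hall' (c - a).val
      rw [ZMod.natCast_val, ZMod.cast_id', id] at this
      simpa using this
    have := Finset.card_le_card hsub
    rw [Finset.card_image_of_injective _ Sum.inr_injective, Finset.card_univ, ZMod.card] at this
    omega
  · push Not at hr
    have hsub : S ⊆ (Finset.univ : Finset (Fin k × ZMod 3)).image Sum.inl := by
      rintro (x | a) hx
      · simp
      · exact (hr a hx).elim
    have := Finset.card_le_card hsub
    rw [Finset.card_image_of_injective _ Sum.inl_injective, Finset.card_univ, Fintype.card_prod,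
      ZMod.card, Fintype.card_fin] at this
    omega

lemma spanned_gr {k L : ℕ} [NeZero L] (S : Finset (Vtx k L)) (hS1 : 3 * k < S.card)
    (hS2 : S.card < L) :
    S.card * S.card + 1 ≤ 2 * spanned (gr k L) S + 3 * S.card := by
  classical
  have h1 := two_mul_spanned (gr k L) S
  have h2 := hpairs_lt S hS1 hS2
  have h3 : (S ×ˢ S).card = S.card * S.card := Finset.card_product _ _
  have h4 : (S ×ˢ S) ⊆ ((S ×ˢ S).filter (fun p => (gr k L).Adj p.1 p.2)) ∪
      ((S ×ˢ S).filter (fun p => adjH k L p.1 p.2)) ∪ S.diag := by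
    rintro ⟨x, y⟩ h
    by_cases hxy : x = y
    · subst hxy
      simp only [mem_product] at h
      simp [h.1]
    · by_cases ha : adjH k L x y
      · simp only [mem_union, mem_filter]
        exact Or.inl (Or.inr ⟨h, ha⟩)
      · simp only [mem_union, mem_filter]
        exact Or.inl (Or.inl ⟨h, hxy, ha⟩)
  have h5 := Finset.card_le_card h4
  have h6 := Finset.card_union_le (((S ×ˢ S).filter (fun p => (gr k L).Adj p.1 p.2)) ∪
      ((S ×ˢ S).filter (fun p => adjH k L p.1 p.2))) S.diag
  have h7 := Finset.card_union_le ((S ×ˢ S).filter (fun p => (gr k L).Adj p.1 p.2))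
      ((S ×ˢ S).filter (fun p => adjH k L p.1 p.2))
  have h8 : S.diag.card = S.card := Finset.diag_card S
  omega

/-! ### The Turán graph -/

/-- the union of `s` parts of size `3` -/
lemma turanHalf_le (s r : ℕ) (hr : s ≤ r) (n : ℕ) (hn : n = 2 * r + s) (hn2 : n / 2 = 3 * s) :
    2 * turanHalf (r + 1) n + 9 * s ≤ 9 * (s * s) := by
  classical
  have hr0 : s = 0 ∨ 0 < r := by omega
  rcases hr0 with rfl | hrpos
  · have hn0 : r = 0 := by omega
    have : turanHalf (r + 1) n ≤ 0 := by
      apply Nat.sInf_le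
      refine ⟨∅, by simp; omega, ?_⟩
      have := two_mul_spanned (SimpleGraph.turanGraph n (r + 1 - 1)) (∅ : Finset (Fin n))
      simp at this
      exact this
    omega
  let f : Fin s × Fin 3 → Fin n := fun p => ⟨p.1.1 + p.2.1 * r, by
    have h1 := p.1.2
    have h2 := p.2.2
    have : p.2.1 * r ≤ 2 * r := Nat.mul_le_mul_right _ (by omega)
    omega⟩
  have hmod : ∀ p, (f p : ℕ) % r = if s = r ∧ False then 0 else p.1.1 % r := by
    intro p
    simp [f, Nat.add_mul_mod_self_right]
  have hmod' : ∀ p, (f p : ℕ) % r = p.1.1 := by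
    intro p
    have h1 := p.1.2
    show (p.1.1 + p.2.1 * r) % r = p.1.1
    rw [Nat.add_mul_mod_self_right, Nat.mod_eq_of_lt (by omega)]
  have hinj : Function.Injective f := by
    rintro ⟨i, a⟩ ⟨j, b⟩ h
    have h1 : (i : ℕ) = j := by rw [← hmod' (i, a), ← hmod' (j, b), h]
    have h2 : (i : ℕ) + a * r = j + b * r := congrArg Fin.val h
    have h3 : (a : ℕ) * r = b * r := by omega
    have h4 : (a : ℕ) = b := Nat.eq_of_mul_eq_mul_right hrpos h3
    exact Prod.ext (Fin.ext h1) (Fin.ext h4)
  set S : Finset (Fin n) := Finset.univ.image f with hS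
  have hScard : S.card = 3 * s := by
    rw [hS, Finset.card_image_of_injective _ hinj, Finset.card_univ, Fintype.card_prod,
      Fintype.card_fin, Fintype.card_fin]
    ring
  have hle : turanHalf (r + 1) n ≤ spanned (SimpleGraph.turanGraph n r) S := by
    apply Nat.sInf_le
    exact ⟨S, by rw [hScard, hn2], rfl⟩
  have hsp := two_mul_spanned (SimpleGraph.turanGraph n r) S
  have hcount : ((S ×ˢ S).filter (fun p => (SimpleGraph.turanGraph n r).Adj p.1 p.2)).card =
      9 * (s * s) - 9 * s := by
    have e1 : ((S ×ˢ S).filter (fun p => (SimpleGraph.turanGraph n r).Adj p.1 p.2)) =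
        ((Finset.univ : Finset ((Fin s × Fin 3) × (Fin s × Fin 3))).filter
          (fun q => q.1.1 ≠ q.2.1)).image (fun q => (f q.1, f q.2)) := by
      ext ⟨x, y⟩
      simp only [mem_filter, mem_product, hS, mem_image, mem_univ, true_and,
        SimpleGraph.turanGraph_adj, Prod.mk.injEq]
      constructor
      · rintro ⟨⟨⟨p, rfl⟩, ⟨q, rfl⟩⟩, h⟩
        refine ⟨(p, q), ?_, rfl, rfl⟩
        rw [hmod', hmod'] at h
        intro h'
        exact h (congrArg Fin.val h')
      · rintro ⟨⟨p, q⟩, h, rfl, rfl⟩
        refine ⟨⟨⟨p, rfl⟩, ⟨q, rfl⟩⟩, ?_⟩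
        rw [hmod', hmod']
        intro h'
        exact h (Fin.ext h')
    rw [e1, Finset.card_image_of_injective]
    · have e2 : ((Finset.univ : Finset ((Fin s × Fin 3) × (Fin s × Fin 3))).filter
          (fun q => q.1.1 ≠ q.2.1)).card +
          ((Finset.univ : Finset ((Fin s × Fin 3) × (Fin s × Fin 3))).filter
          (fun q => ¬ q.1.1 ≠ q.2.1)).card = (3 * s) * (3 * s) := by
        rw [Finset.card_filter_add_card_filter_not]
        simp only [Finset.card_univ, Fintype.card_prod, Fintype.card_fin]
        ring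
      have e3 : ((Finset.univ : Finset ((Fin s × Fin 3) × (Fin s × Fin 3))).filter
          (fun q => ¬ q.1.1 ≠ q.2.1)).card = 9 * s := by
        have e4 : ((Finset.univ : Finset ((Fin s × Fin 3) × (Fin s × Fin 3))).filter
          (fun q => ¬ q.1.1 ≠ q.2.1)) = ((Finset.univ : Finset (Fin s × (Fin 3 × Fin 3))).image
            (fun z => ((z.1, z.2.1), (z.1, z.2.2)))) := by
          ext ⟨⟨i, a⟩, ⟨j, b⟩⟩
          simp only [mem_filter, mem_univ, true_and, not_not, mem_image, Prod.mk.injEq]
          constructor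
          · rintro rfl
            exact ⟨(i, (a, b)), ⟨rfl, rfl⟩, rfl, rfl⟩
          · rintro ⟨z, ⟨rfl, _⟩, h, _⟩
            exact h
        rw [e4, Finset.card_image_of_injective]
        · simp only [Finset.card_univ, Fintype.card_prod, Fintype.card_fin]
          ring
        · rintro ⟨i, a, b⟩ ⟨j, c, d⟩ h
          simp only [Prod.mk.injEq] at h
          obtain ⟨⟨rfl, rfl⟩, _, rfl⟩ := h
          rfl
      have e5 : 3 * s * (3 * s) = 9 * (s * s) := by ring
      omega
    · rintro ⟨p, q⟩ ⟨p', q'⟩ h
      simp only [Prod.mk.injEq] at h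
      exact Prod.ext (hinj h.1) (hinj h.2)
  have hss : s ≤ s * s := Nat.le_mul_self s
  have hsp' : 2 * spanned (SimpleGraph.turanGraph n r) S = 9 * (s * s) - 9 * s := by
    rw [hsp, ← hcount]
    congr
  omega

/-- **Main construction.** -/
theorem main (k : ℕ) : ∃ G : SimpleGraph (Fin (6 * (k + 1) + (k + 1) % 2)),
    G.CliqueFree ((5 * (k + 1) + 1) / 2 + 1) ∧
    ∀ S : Finset (Fin (6 * (k + 1) + (k + 1) % 2)), S.card = (6 * (k + 1) + (k + 1) % 2) / 2 →
      turanHalf ((5 * (k + 1) + 1) / 2 + 1) (6 * (k + 1) + (k + 1) % 2) < spanned G S := by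
  classical
  set n := 6 * (k + 1) + (k + 1) % 2 with hn
  set L := n - 3 * k with hL
  have hLodd : Odd L := by
    rw [Nat.odd_iff]
    omega
  have hNZ : NeZero L := ⟨by omega⟩
  have hcard : Fintype.card (Vtx k L) = n := by
    rw [Fintype.card_sum, Fintype.card_prod, Fintype.card_fin, ZMod.card, ZMod.card]
    omega
  let e : Fin n ≃ Vtx k L := (Fintype.equivFinOfCardEq hcard).symm
  refine ⟨(gr k L).comap e, ?_, ?_⟩
  · have hfree := gr_cliqueFree (k := k) (L := L) (r := (5 * (k + 1) + 1) / 2 + 1) hLodd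
      (by omega) (by omega)
    exact SimpleGraph.CliqueFree.comap (SimpleGraph.Embedding.comap e.toEmbedding (gr k L)).isContained hfree
  · intro S hS
    rw [spanned_comap]
    have hS' : (S.map e.toEmbedding).card = 3 * (k + 1) := by
      rw [Finset.card_map, hS]
      omega
    have h1 := spanned_gr (k := k) (L := L) (S.map e.toEmbedding) (by omega) (by omega)
    have h2 := turanHalf_le (k + 1) ((5 * (k + 1) + 1) / 2) (by omega) n (by omega) (by omega)
    rw [hS'] at h1
    have h3 : 3 * (k + 1) * (3 * (k + 1)) = 9 * ((k + 1) * (k + 1)) := by ring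
    rw [h3] at h1
    omega

end Pool.Agent.W155.HalfSets
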