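import Pool.Agent.H323R2.Seq

/-!
Expansions of `x - r` with bounded integer digits, `x` algebraic, `r` rational: the main inequality,
uniform in `r`.
-/

set_option autoImplicit false

namespace Pool.Agent.W155.PerHam

open Polynomial Finset Pool.Agent.H323R2

lemma n1_pow_le' (P : ℤ[X]) (k : ℕ) : n1 (P ^ k) ≤ n1 P ^ k := by
  induction k with
  | zero => simp [n1_one]
  | succ k ih =>
    rw [pow_succ, pow_succ]
    exact (n1_mul_le _ _).trans (mul_le_mul_of_nonneg_right ih (n1_nonneg P))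

lemma n1_comp_le' (F R : ℤ[X]) :
    n1 (F.comp R) ≤ ∑ i ∈ F.support, |F.coeff i| * n1 R ^ i := by
  have h : F.comp R = ∑ i ∈ F.support, C (F.coeff i) * R ^ i := by
    rw [Polynomial.comp, Polynomial.eval₂_eq_sum, Polynomial.sum_def]
  rw [h]
  refine (n1_sum_le _ _).trans (Finset.sum_le_sum fun i _ => ?_)
  calc n1 (C (F.coeff i) * R ^ i) ≤ n1 (C (F.coeff i)) * n1 (R ^ i) := n1_mul_le _ _
    _ ≤ |F.coeff i| * n1 R ^ i := by
      rw [n1_C]
      exact mul_le_mul_of_nonneg_left (n1_pow_le' R i) (abs_nonneg _)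

/-- `ℓ¹` norm of the homogenised composition -/
lemma n1_hom (P R : ℤ[X]) (D : ℕ) (A : ℝ) (hA : 1 ≤ A)
    (hR : (n1 R : ℝ) ≤ D * A) :
    (n1 ((scaleRoots P (D : ℤ)).comp R) : ℝ) ≤ (n1 P : ℝ) * (D * A) ^ P.natDegree := by
  have h1 : (n1 ((scaleRoots P (D : ℤ)).comp R) : ℝ) ≤
      ∑ i ∈ (scaleRoots P (D : ℤ)).support,
        |((scaleRoots P (D : ℤ)).coeff i : ℝ)| * (n1 R : ℝ) ^ i := by
    exact_mod_cast n1_comp_le' _ R
  have hR0 : (0 : ℝ) ≤ (n1 R : ℝ) := by exact_mod_cast n1_nonneg R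
  refine h1.trans ?_
  have h2 : ∀ i ∈ (scaleRoots P (D : ℤ)).support,
      |((scaleRoots P (D : ℤ)).coeff i : ℝ)| * (n1 R : ℝ) ^ i ≤
        |(P.coeff i : ℝ)| * (D * A) ^ P.natDegree := by
    intro i hi
    have hi' : i ≤ P.natDegree := by
      have := le_natDegree_of_mem_supp i hi
      rwa [natDegree_scaleRoots] at this
    rw [coeff_scaleRoots]
    push_cast
    rw [abs_mul, mul_assoc]
    apply mul_le_mul_of_nonneg_left _ (abs_nonneg _)
    rw [abs_of_nonneg (by positivity)]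
    calc (D : ℝ) ^ (P.natDegree - i) * (n1 R : ℝ) ^ i
        ≤ (D : ℝ) ^ (P.natDegree - i) * (D * A) ^ i :=
          mul_le_mul_of_nonneg_left (pow_le_pow_left₀ hR0 hR i) (by positivity)
      _ = (D : ℝ) ^ P.natDegree * A ^ i := by
          rw [mul_pow, ← mul_assoc, ← pow_add, Nat.sub_add_cancel hi']
      _ ≤ (D : ℝ) ^ P.natDegree * A ^ P.natDegree :=
          mul_le_mul_of_nonneg_left (pow_le_pow_right₀ hA hi') (by positivity)
      _ = _ := by rw [mul_pow]
  refine (Finset.sum_le_sum h2).trans ?_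
  rw [← Finset.sum_mul]
  apply mul_le_mul_of_nonneg_right _ (by positivity)
  have := sum_abs_coeff_le P (scaleRoots P (D : ℤ)).support
  exact_mod_cast this

lemma S_C_add_mul (b : ℕ) (c D : ℤ) (W : ℤ[X]) (M : ℕ) :
    S b (C c + C D * W) M = c * (b : ℤ) ^ M + D * S b W M := by
  induction M with
  | zero => rw [S_zero, S_zero]; simp
  | succ M ih =>
    rw [S_succ, S_succ, ih, coeff_add, coeff_C_mul, coeff_C, if_neg (by omega), pow_succ]
    ring

/-- the integer part sums of the composition do not vanish -/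
lemma S_ne_zero (P : ℤ[X]) (b : ℕ) (r : ℚ)
    (hr : ∀ (n : ℕ) (z : ℤ), (b : ℚ) ^ n * (P.leadingCoeff : ℚ) * r ≠ z) (G : ℤ[X]) (M : ℕ) :
    S b ((scaleRoots P (r.den : ℤ)).comp (C (r.den : ℤ) * G + C r.num)) M ≠ 0 := by
  set D : ℤ := (r.den : ℤ) with hD
  set Q := scaleRoots P D with hQ
  have hD0 : D ≠ 0 := by rw [hD]; exact_mod_cast r.den_ne_zero
  obtain ⟨W, hW⟩ : C D * G ∣ Q.comp (C D * G + C r.num) - Q.comp (C r.num) := by
    have := Polynomial.sub_dvd_eval_sub (C D * G + C r.num) (C r.num) (Q.map C)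
    rw [eval_map, eval_map] at this
    simpa [Polynomial.comp] using this
  have e1 : Q.comp (C D * G + C r.num) = C (Q.eval r.num) + C D * (G * W) := by
    have : Q.comp (C r.num) = C (Q.eval r.num) := comp_C
    rw [this] at hW
    linear_combination hW
  rw [e1, S_C_add_mul]
  intro h0
  -- `Q(Y) ≡ a Y^d` modulo `D`
  have h1 : D ∣ Q.eval r.num - P.leadingCoeff * r.num ^ P.natDegree := by
    rw [eval_eq_sum_range, natDegree_scaleRoots, Finset.sum_range_succ]
    have e2 : Q.coeff P.natDegree = P.leadingCoeff := by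
      rw [hQ, coeff_scaleRoots, Nat.sub_self, pow_zero, mul_one, coeff_natDegree]
    rw [e2]
    have e3 : ∀ s : ℤ, s + P.leadingCoeff * r.num ^ P.natDegree -
        P.leadingCoeff * r.num ^ P.natDegree = s := fun s => by ring
    rw [e3]
    apply Finset.dvd_sum
    intro i hi
    rw [Finset.mem_range] at hi
    rw [hQ, coeff_scaleRoots]
    apply Dvd.dvd.mul_right
    apply Dvd.dvd.mul_left
    exact dvd_pow_self D (by omega)
  have h2 : D ∣ P.leadingCoeff * (b : ℤ) ^ M * r.num ^ P.natDegree := by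
    obtain ⟨w, hw⟩ := h1
    refine ⟨-(S b (G * W) M) - w * (b : ℤ) ^ M, ?_⟩
    have : P.leadingCoeff * r.num ^ P.natDegree = Q.eval r.num - D * w := by linarith
    calc P.leadingCoeff * (b : ℤ) ^ M * r.num ^ P.natDegree
        = (P.leadingCoeff * r.num ^ P.natDegree) * (b : ℤ) ^ M := by ring
      _ = (Q.eval r.num - D * w) * (b : ℤ) ^ M := by rw [this]
      _ = _ := by linear_combination h0
  have hcop : IsCoprime D (r.num ^ P.natDegree) := by
    apply IsCoprime.pow_right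
    rw [Int.isCoprime_iff_gcd_eq_one]
    have := r.reduced
    rw [Nat.Coprime, Nat.gcd_comm] at this
    simpa [hD, Int.gcd] using this
  have h3 : D ∣ P.leadingCoeff * (b : ℤ) ^ M := hcop.dvd_of_dvd_mul_right h2
  obtain ⟨z, hz⟩ := h3
  apply hr M (z * r.num)
  have h4 : (D : ℚ) ≠ 0 := by exact_mod_cast hD0
  have h5 : (r : ℚ) * (D : ℚ) = r.num := by
    rw [hD]; push_cast; exact Rat.mul_den_eq_num r
  have h6 : (P.leadingCoeff : ℚ) * (b : ℚ) ^ M = D * z := by exact_mod_cast hz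
  push_cast
  rw [← h5]
  linear_combination r * h6

/-- **Main inequality.** -/
theorem main (P : ℤ[X]) (x : ℝ) (hx : (P.map (Int.castRingHom ℝ)).eval x = 0) (b : ℕ)
    (hb : 2 ≤ b) (C0 : ℝ) :
    ∃ K : ℝ, 0 < K ∧ ∀ r : ℚ, (∀ (n : ℕ) (z : ℤ), (b : ℚ) ^ n * (P.leadingCoeff : ℚ) * r ≠ z) →
      ∀ U : ℕ → ℤ, (∀ k, |(U k : ℝ) - (b : ℝ) ^ k * (x - r)| ≤ C0) → ∀ N : ℕ,
        ((N : ℝ) + 1) ≤ K * ((r.den : ℝ) * (1 + (V b U N : ℝ))) ^ P.natDegree := by
  have hb0 : (0 : ℝ) < b := by positivity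
  have hb1 : (1 : ℝ) ≤ b := by exact_mod_cast (by omega : 1 ≤ b)
  set PR := P.map (Int.castRingHom ℝ) with hPR
  have hroot : PR.IsRoot x := hx
  have hfac : (X - C x) * (PR /ₘ (X - C x)) = PR := mul_divByMonic_eq_iff_isRoot.2 hroot
  set H := PR /ₘ (X - C x) with hH
  obtain ⟨L, hL⟩ := (isCompact_Icc (a := x - |C0|) (b := x + |C0|)).exists_bound_of_continuousOn
    (f := fun u => H.eval u) H.continuous.continuousOn
  have hL0 : 0 ≤ L := (norm_nonneg _).trans
    (hL x ⟨by linarith [abs_nonneg C0], by linarith [abs_nonneg C0]⟩)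
  have hn0 : (0 : ℝ) ≤ (n1 P : ℝ) := by exact_mod_cast n1_nonneg P
  refine ⟨(n1 P : ℝ) * (2 + |x| + |C0|) ^ P.natDegree + b * L * |C0| + 1, by positivity, ?_⟩
  intro r hr U hU N
  set D : ℝ := (r.den : ℝ) with hD
  have hD1 : 1 ≤ D := by rw [hD]; exact_mod_cast r.pos
  have hrD : (r.num : ℝ) = D * (r : ℝ) := by
    have := Rat.mul_den_eq_num r
    have h2 : ((r * r.den : ℚ) : ℝ) = ((r.num : ℚ) : ℝ) := by rw [this]
    push_cast at h2
    rw [hD]; linarith
  set G := Pol b U N with hG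
  set v : ℝ := (V b U N : ℝ) with hv
  have hv0 : 0 ≤ v := by rw [hv]; exact_mod_cast V_nonneg b U N
  have hU0 : |(U 0 : ℝ)| ≤ v := by
    have : |U 0| ≤ V b U N := by
      unfold V
      exact Finset.single_le_sum (f := fun k => |dlt b U k|) (fun _ _ => abs_nonneg _)
        (Finset.mem_range.2 (Nat.succ_pos N))
    rw [hv]; exact_mod_cast this
  have hr1 : |(r : ℝ)| ≤ |x| + |C0| + v := by
    have h0 := hU 0
    rw [pow_zero, one_mul] at h0
    have h1 : (r : ℝ) = x + ((U 0 : ℝ) - (x - r)) - U 0 := by ring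
    have h2 : |(r : ℝ)| ≤ |x + ((U 0 : ℝ) - (x - r))| + |(U 0 : ℝ)| := by
      conv_lhs => rw [h1]
      exact abs_sub _ _
    have h3 : |x + ((U 0 : ℝ) - (x - r))| ≤ |x| + |(U 0 : ℝ) - (x - r)| := abs_add_le _ _
    have h4 := le_abs_self C0
    linarith
  -- the composed polynomial
  set R : ℤ[X] := C (r.den : ℤ) * G + C r.num with hR
  set F := (scaleRoots P (r.den : ℤ)).comp R with hF
  have hn1G : (n1 G : ℝ) ≤ v := by rw [hv]; exact_mod_cast n1_Pol_le b U N
  have hn1R : (n1 R : ℝ) ≤ r.den * ((2 + |x| + |C0|) * (1 + v)) := by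
    have h1 : n1 R ≤ (r.den : ℤ) * n1 G + |r.num| := by
      refine (n1_add_le _ _).trans ?_
      rw [n1_C]
      refine add_le_add ((n1_mul_le _ _).trans ?_) le_rfl
      rw [n1_C]
      simp
    have h2 : (n1 R : ℝ) ≤ D * (n1 G : ℝ) + |(r.num : ℝ)| := by
      rw [hD]; exact_mod_cast h1
    rw [hrD, abs_mul, abs_of_nonneg (by linarith : (0 : ℝ) ≤ D)] at h2
    have h3 : (n1 G : ℝ) + |(r : ℝ)| ≤ (2 + |x| + |C0|) * (1 + v) := by
      nlinarith [abs_nonneg x, abs_nonneg C0]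
    calc (n1 R : ℝ) ≤ D * ((n1 G : ℝ) + |(r : ℝ)|) := by linarith
      _ ≤ _ := mul_le_mul_of_nonneg_left h3 (by linarith)
  have hA1 : 1 ≤ (2 + |x| + |C0|) * (1 + v) := by
    nlinarith [abs_nonneg x, abs_nonneg C0]
  have hn1F : (n1 F : ℝ) ≤ (n1 P : ℝ) * (r.den * ((2 + |x| + |C0|) * (1 + v))) ^ P.natDegree :=
    n1_hom P R r.den _ hA1 hn1R
  -- lower bound
  have hlow : (N : ℝ) + 1 ≤ ∑ M ∈ range (N + 1), (|S b F M| : ℝ) := by
    calc ((N : ℝ) + 1) = ∑ M ∈ range (N + 1), (1 : ℝ) := by simp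
      _ ≤ _ := by
        apply Finset.sum_le_sum
        intro M _
        have h9 : (1 : ℤ) ≤ |S b F M| := Int.one_le_abs (S_ne_zero P b r hr G M)
        exact_mod_cast h9
  have hup := sum_abs_S_le b hb F N
  -- value at `1/b`
  set u := (G.map (Int.castRingHom ℝ)).eval (1 / (b : ℝ)) with hu
  have hap : |u - (x - r)| ≤ C0 / (b : ℝ) ^ N := approx_Pol b hb U (x - r) C0 hU N
  have hev : (F.map (Int.castRingHom ℝ)).eval (1 / (b : ℝ)) = D ^ P.natDegree * PR.eval (u + r) := by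
    have h1 : (F.map (Int.castRingHom ℝ)).eval (1 / (b : ℝ)) =
        ((scaleRoots P (r.den : ℤ)).map (Int.castRingHom ℝ)).eval (D * (u + r)) := by
      rw [hF, Polynomial.map_comp, Polynomial.eval_comp, hR]
      congr 1
      simp only [Polynomial.map_add, Polynomial.map_mul, Polynomial.map_C, eval_add, eval_mul,
        eval_C, ← hu]
      rw [eq_intCast, eq_intCast, hrD, Int.cast_natCast]; ring
    rw [h1]
    have := scaleRoots_eval₂_mul (p := P) (Int.castRingHom ℝ) (u + r) (r.den : ℤ)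
    rw [eval_map, hPR, eval_map]
    simpa using this
  have hbN : (1 : ℝ) ≤ (b : ℝ) ^ N := one_le_pow₀ hb1
  have hC0 : C0 / (b : ℝ) ^ N ≤ |C0| / (b : ℝ) ^ N :=
    div_le_div_of_nonneg_right (le_abs_self _) (by positivity)
  have hut : |(u + r) - x| ≤ |C0| / (b : ℝ) ^ N := by
    have : (u + r) - x = u - (x - r) := by ring
    rw [this]; exact hap.trans hC0
  have hut' : |(u + r) - x| ≤ |C0| := hut.trans (div_le_self (abs_nonneg _) hbN)
  have hmem : (u + r) ∈ Set.Icc (x - |C0|) (x + |C0|) := by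
    rw [abs_le] at hut'
    exact ⟨by linarith [hut'.1], by linarith [hut'.2]⟩
  have hHu : |H.eval (u + r)| ≤ L := hL _ hmem
  have hFu : |PR.eval (u + r)| ≤ (|C0| / (b : ℝ) ^ N) * L := by
    have : PR.eval (u + r) = ((u + r) - x) * H.eval (u + r) := by
      conv_lhs => rw [← hfac]
      simp
    rw [this, abs_mul]
    exact mul_le_mul hut hHu (abs_nonneg _) (by positivity)
  have hD0 : (0 : ℝ) ≤ D := by linarith
  have hval : (b : ℝ) ^ (N + 1) * |(F.map (Int.castRingHom ℝ)).eval (1 / (b : ℝ))| ≤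
      b * L * |C0| * D ^ P.natDegree := by
    rw [hev, abs_mul, abs_of_nonneg (by positivity : (0 : ℝ) ≤ D ^ P.natDegree)]
    calc (b : ℝ) ^ (N + 1) * (D ^ P.natDegree * |PR.eval (u + r)|)
        ≤ (b : ℝ) ^ (N + 1) * (D ^ P.natDegree * ((|C0| / (b : ℝ) ^ N) * L)) := by gcongr
      _ = b * L * |C0| * D ^ P.natDegree := by
          rw [pow_succ]; field_simp
  have hDv : D ^ P.natDegree ≤ (D * (1 + v)) ^ P.natDegree :=
    pow_le_pow_left₀ hD0 (by nlinarith) _
  have hD1' : 1 ≤ D ^ P.natDegree := one_le_pow₀ hD1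
  have e : (n1 P : ℝ) * (r.den * ((2 + |x| + |C0|) * (1 + v))) ^ P.natDegree =
      (n1 P : ℝ) * (2 + |x| + |C0|) ^ P.natDegree * (D * (1 + v)) ^ P.natDegree := by
    rw [hD, mul_assoc, ← mul_pow]
    congr 2; ring
  rw [e] at hn1F
  have hbl : 0 ≤ b * L * |C0| := by positivity
  calc ((N : ℝ) + 1) ≤ (n1 F : ℝ) +
        (b : ℝ) ^ (N + 1) * |(F.map (Int.castRingHom ℝ)).eval (1 / (b : ℝ))| := hlow.trans hup
    _ ≤ (n1 P : ℝ) * (2 + |x| + |C0|) ^ P.natDegree * (D * (1 + v)) ^ P.natDegree +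
        b * L * |C0| * (D * (1 + v)) ^ P.natDegree := by
        refine add_le_add hn1F (hval.trans ?_)
        exact mul_le_mul_of_nonneg_left hDv hbl
    _ ≤ _ := by nlinarith

end Pool.Agent.W155.PerHam
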