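import Pool.Agent.W155.PerHam1

/-!
Eventually periodic sequences, digits and the number of failures of a relation.
-/

set_option autoImplicit false

namespace Pool.Agent.W155.PerHam

open Polynomial Finset Pool.Agent.H323R2

/-- the `k`-th digit after the point of `x` in base `b` -/
noncomputable def digit (b : ℕ) (x : ℝ) (k : ℕ) : ℤ := ⌊(b : ℝ) ^ k * x⌋ % b

lemma digit_nonneg {b : ℕ} (hb : 2 ≤ b) (x : ℝ) (k : ℕ) : 0 ≤ digit b x k :=
  Int.emod_nonneg _ (by omega)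

lemma digit_lt {b : ℕ} (hb : 2 ≤ b) (x : ℝ) (k : ℕ) : digit b x k < b :=
  Int.emod_lt_of_pos _ (by omega)

lemma floor_succ {b : ℕ} (hb : 2 ≤ b) (x : ℝ) (k : ℕ) :
    ⌊(b : ℝ) ^ (k + 1) * x⌋ = b * ⌊(b : ℝ) ^ k * x⌋ + digit b x (k + 1) := by
  have hb0 : (0 : ℝ) < b := by positivity
  have h1 : ⌊(b : ℝ) ^ (k + 1) * x⌋ / (b : ℤ) = ⌊(b : ℝ) ^ k * x⌋ := by
    set y := (b : ℝ) ^ k * x with hy
    have e : (b : ℝ) ^ (k + 1) * x = b * y := by rw [hy, pow_succ]; ring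
    rw [e]
    have h2 : (b : ℤ) * ⌊y⌋ ≤ ⌊(b : ℝ) * y⌋ := by
      apply Int.le_floor.2
      push_cast
      exact mul_le_mul_of_nonneg_left (Int.floor_le y) hb0.le
    have h3 : ⌊(b : ℝ) * y⌋ < (b : ℤ) * (⌊y⌋ + 1) := by
      apply Int.floor_lt.2
      push_cast
      exact mul_lt_mul_of_pos_left (Int.lt_floor_add_one y) hb0
    have hbz : (0 : ℤ) < b := by omega
    apply le_antisymm
    · have := Int.ediv_lt_of_lt_mul hbz (by linarith : ⌊(b : ℝ) * y⌋ < (⌊y⌋ + 1) * b)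
      omega
    · exact (Int.le_ediv_iff_mul_le hbz).2 (by linarith)
  unfold digit
  have := Int.mul_ediv_add_emod ⌊(b : ℝ) ^ (k + 1) * x⌋ (b : ℤ)
  rw [h1] at this
  linarith

/-- the integers `∑_{1 ≤ k ≤ K} v_k b^{K-k}` -/
def W (b : ℕ) (v : ℕ → ℤ) : ℕ → ℤ
  | 0 => 0
  | K + 1 => b * W b v K + v (K + 1)

/-- the value of the expansion after the place `K` -/
noncomputable def tl (b : ℕ) (v : ℕ → ℤ) (K : ℕ) : ℝ :=
  ∑' k : ℕ, (v (K + k + 1) : ℝ) / (b : ℝ) ^ (k + 1)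

section tail

variable {b : ℕ} (hb : 2 ≤ b) {v : ℕ → ℤ} {B : ℝ} (hv : ∀ k, |(v k : ℝ)| ≤ B)

include hb in
lemma summ_geo : Summable (fun k : ℕ => B / (b : ℝ) ^ (k + 1)) := by
  have hb1 : (1 : ℝ) < b := by exact_mod_cast (by omega : 1 < b)
  have h : Summable (fun k : ℕ => B * (1 / (b : ℝ)) ^ (k + 1)) := by
    apply Summable.mul_left
    exact (summable_nat_add_iff 1).2 (summable_geometric_of_lt_one (by positivity)
      (by rw [div_lt_one (by positivity)]; exact hb1))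
  refine h.congr fun k => ?_
  rw [one_div, inv_pow]; rfl

include hb hv in
lemma summ (K : ℕ) : Summable (fun k : ℕ => (v (K + k + 1) : ℝ) / (b : ℝ) ^ (k + 1)) := by
  refine Summable.of_norm_bounded (summ_geo (B := B) hb) fun k => ?_
  rw [Real.norm_eq_abs, abs_div, abs_of_nonneg (by positivity : (0 : ℝ) ≤ (b : ℝ) ^ (k + 1))]
  exact div_le_div_of_nonneg_right (hv _) (by positivity)

include hb hv in
lemma tl_rec (K : ℕ) : (b : ℝ) * tl b v K = v (K + 1) + tl b v (K + 1) := by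
  have hb0 : (b : ℝ) ≠ 0 := by positivity
  unfold tl
  rw [(summ hb hv K).tsum_eq_zero_add]
  have e : ∀ k : ℕ, (v (K + (k + 1) + 1) : ℝ) / (b : ℝ) ^ (k + 1 + 1) =
      (1 / (b : ℝ)) * ((v (K + 1 + k + 1) : ℝ) / (b : ℝ) ^ (k + 1)) := by
    intro k
    rw [show K + (k + 1) + 1 = K + 1 + k + 1 by omega, pow_succ]
    field_simp
  rw [tsum_congr e, tsum_mul_left]
  simp only [add_zero, zero_add, pow_one]
  field_simp

include hb hv in
lemma tl_eq (K : ℕ) : (b : ℝ) ^ K * tl b v 0 - W b v K = tl b v K := by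
  induction K with
  | zero => simp [W]
  | succ K ih =>
    have h := tl_rec hb hv K
    simp only [W]
    push_cast
    rw [pow_succ]
    linear_combination (b : ℝ) * ih + h

include hb in
lemma geo_sum : ∑' k : ℕ, B / (b : ℝ) ^ (k + 1) = B / (b - 1) := by
  have hb1 : (1 : ℝ) < b := by exact_mod_cast (by omega : 1 < b)
  have e : ∀ k : ℕ, B / (b : ℝ) ^ (k + 1) = (B / b) * (1 / (b : ℝ)) ^ k := by
    intro k
    rw [one_div, inv_pow, pow_succ]
    field_simp
  rw [tsum_congr e, tsum_mul_left, tsum_geometric_of_lt_one (by positivity)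
    (by rw [div_lt_one (by positivity)]; exact hb1)]
  have : (b : ℝ) - 1 ≠ 0 := by linarith
  field_simp

include hb hv in
lemma abs_tl_le (K : ℕ) : |tl b v K| ≤ B / (b - 1) := by
  rw [← geo_sum (B := B) hb]
  have hs := summ hb hv K
  calc |tl b v K| ≤ ∑' k : ℕ, |(v (K + k + 1) : ℝ) / (b : ℝ) ^ (k + 1)| := by
        exact norm_tsum_le_tsum_norm hs.norm
    _ ≤ _ := by
        apply Summable.tsum_le_tsum _ hs.abs (summ_geo hb)
        intro k
        rw [abs_div, abs_of_nonneg (by positivity : (0 : ℝ) ≤ (b : ℝ) ^ (k + 1))]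
        exact div_le_div_of_nonneg_right (hv _) (by positivity)

lemma tl_per {k₀ T : ℕ} (hp : ∀ k, k₀ ≤ k → v (k + T) = v k) {K : ℕ} (hK : k₀ ≤ K + 1) :
    tl b v (K + T) = tl b v K := by
  unfold tl
  apply tsum_congr
  intro k
  rw [show K + T + k + 1 = (K + k + 1) + T by omega, hp _ (by omega)]

include hb hv in
/-- the value is rational with denominator dividing `b^{k₀} (b^T - 1)` -/
lemma val_rat {k₀ T : ℕ} (hT : 1 ≤ T) (hp : ∀ k, k₀ ≤ k → v (k + T) = v k) :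
    ∃ r : ℚ, (r : ℝ) = tl b v 0 ∧ r.den ≤ b ^ (k₀ + T) := by
  have hb1 : 1 < b := by omega
  have hbT : 1 < b ^ T := Nat.one_lt_pow (by omega) hb1
  have h1 := tl_eq hb hv (k₀ + T)
  have h2 := tl_eq hb hv k₀
  have h3 := tl_per (b := b) hp (K := k₀) (Nat.le_succ _)
  set D : ℕ := b ^ k₀ * (b ^ T - 1) with hD
  have hD0 : 0 < D := Nat.mul_pos (by positivity) (by omega)
  set M : ℤ := W b v (k₀ + T) - W b v k₀ with hM
  have hDR : (D : ℝ) = (b : ℝ) ^ (k₀ + T) - (b : ℝ) ^ k₀ := by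
    rw [hD, Nat.cast_mul, Nat.cast_sub hbT.le]
    push_cast
    rw [pow_add]; ring
  have hD0' : (D : ℝ) ≠ 0 := by exact_mod_cast hD0.ne'
  refine ⟨(M : ℚ) / ((D : ℤ) : ℚ), ?_, ?_⟩
  · push_cast
    rw [div_eq_iff hD0', hM]
    push_cast
    rw [hDR]
    linarith
  · have h4 : (((M : ℚ) / ((D : ℤ) : ℚ)).den : ℤ) ∣ (D : ℤ) := by
      rw [← Rat.divInt_eq_div]
      exact Rat.den_dvd M (D : ℤ)
    have h5 : ((M : ℚ) / ((D : ℤ) : ℚ)).den ∣ D := by exact_mod_cast h4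
    refine (Nat.le_of_dvd hD0 h5).trans ?_
    rw [hD, pow_add]
    exact Nat.mul_le_mul_left _ (Nat.sub_le _ _)

end tail

/-- the number of `1 ≤ k ≤ N` with `∑_j q_j a_{k+j} ≠ v_k`, where `a_k` are the digits of `x` -/
noncomputable def mis (b : ℕ) (x : ℝ) (m : ℕ) (q : ℕ → ℤ) (v : ℕ → ℤ) (N : ℕ) : ℕ :=
  ((Icc 1 N).filter (fun k : ℕ => ∑ j ∈ range (m + 1), q j * digit b x (k + j) ≠ v k)).card

/-- **Relations.** -/
theorem relations (P : ℤ[X]) (hd : 1 ≤ P.natDegree) (x : ℝ) (hx : aeval x P = 0)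
    (b : ℕ) (hb : 2 ≤ b) (m : ℕ) (q : ℕ → ℤ) (B : ℝ) :
    ∃ C : ℝ, 0 < C ∧ ∀ (v : ℕ → ℤ) (k₀ T : ℕ), 1 ≤ T → (∀ k, |(v k : ℝ)| ≤ B) →
      (∀ k, k₀ ≤ k → v (k + T) = v k) →
      (∀ (n : ℕ) (z : ℤ), (b : ℝ) ^ n * (P.leadingCoeff : ℝ) * tl b v 0 ≠ z) →
      ∀ N : ℕ, (N : ℝ) ≤
        (C * (b : ℝ) ^ (k₀ + T) * (1 + (mis b x m q v N : ℝ))) ^ P.natDegree := by
  have hb0 : (0 : ℝ) < b := by positivity
  have hb2 : (2 : ℝ) ≤ b := by exact_mod_cast hb
  set β : ℤ := ∑ j ∈ range (m + 1), q j * (b : ℤ) ^ j with hβ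
  have hroot : ((scaleRoots P β).map (Int.castRingHom ℝ)).eval ((β : ℝ) * x) = 0 := by
    have := scaleRoots_eval₂_mul (p := P) (Int.castRingHom ℝ) x β
    rw [eval_map]
    have hx' : eval₂ (Int.castRingHom ℝ) x P = 0 := by
      rw [aeval_def] at hx
      simpa using hx
    rw [hx', mul_zero] at this
    simpa using this
  set Q1 : ℝ := ∑ j ∈ range (m + 1), |(q j : ℝ)| with hQ1
  have hQ10 : 0 ≤ Q1 := Finset.sum_nonneg fun _ _ => abs_nonneg _
  obtain ⟨K, hK, hmain⟩ := main (scaleRoots P β) ((β : ℝ) * x) hroot b hb (Q1 + |B|)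
  rw [natDegree_scaleRoots, leadingCoeff_scaleRoots] at hmain
  set u0 : ℤ := ∑ j ∈ range (m + 1), q j * ⌊(b : ℝ) ^ j * x⌋ with hu0
  set C3 : ℝ := 1 + |(u0 : ℝ)| + Q1 * b + |B| with hC3
  have hC31 : 1 ≤ C3 := by
    have := abs_nonneg (u0 : ℝ)
    have := abs_nonneg B
    have : 0 ≤ Q1 * b := by positivity
    rw [hC3]; linarith
  refine ⟨(K + 1) * C3, by positivity, ?_⟩
  intro v k₀ T hT hvB hp hval N
  have hB0 : B ≤ |B| := le_abs_self B
  obtain ⟨r, hr, hden⟩ := val_rat hb hvB hT hp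
  -- the integer sequence
  set U : ℕ → ℤ := fun k => ∑ j ∈ range (m + 1), q j * ⌊(b : ℝ) ^ (k + j) * x⌋ - W b v k with hU
  have hUap : ∀ k, |(U k : ℝ) - (b : ℝ) ^ k * ((β : ℝ) * x - r)| ≤ Q1 + |B| := by
    intro k
    have h1 := tl_eq hb hvB k
    rw [← hr] at h1
    have h2 : (U k : ℝ) - (b : ℝ) ^ k * ((β : ℝ) * x - r) =
        ∑ j ∈ range (m + 1), (q j : ℝ) * ((⌊(b : ℝ) ^ (k + j) * x⌋ : ℝ) - (b : ℝ) ^ (k + j) * x) +
          tl b v k := by
      simp only [hU]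
      push_cast
      rw [← h1]
      simp only [mul_sub, Finset.sum_sub_distrib]
      have h3 : ∑ j ∈ range (m + 1), (q j : ℝ) * ((b : ℝ) ^ (k + j) * x) =
          (b : ℝ) ^ k * ((β : ℝ) * x) := by
        rw [hβ]
        push_cast
        rw [Finset.sum_mul, Finset.mul_sum]
        apply Finset.sum_congr rfl
        intro j _
        rw [pow_add]; ring
      rw [h3]; ring
    rw [h2]
    refine (abs_add_le _ _).trans (add_le_add ?_ ?_)
    · refine (Finset.abs_sum_le_sum_abs _ _).trans ?_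
      rw [hQ1]
      apply Finset.sum_le_sum
      intro j _
      rw [abs_mul]
      have h4 : |(⌊(b : ℝ) ^ (k + j) * x⌋ : ℝ) - (b : ℝ) ^ (k + j) * x| ≤ 1 := by
        rw [abs_le]
        constructor
        · linarith [Int.lt_floor_add_one ((b : ℝ) ^ (k + j) * x)]
        · linarith [Int.floor_le ((b : ℝ) ^ (k + j) * x)]
      calc |(q j : ℝ)| * _ ≤ |(q j : ℝ)| * 1 := mul_le_mul_of_nonneg_left h4 (abs_nonneg _)
        _ = _ := mul_one _
    · refine (abs_tl_le hb hvB k).trans ?_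
      have : B / ((b : ℝ) - 1) ≤ |B| / ((b : ℝ) - 1) :=
        div_le_div_of_nonneg_right hB0 (by linarith)
      refine this.trans (div_le_self (abs_nonneg _) (by linarith))
  have hcond : ∀ (n : ℕ) (z : ℤ), (b : ℚ) ^ n * (P.leadingCoeff : ℚ) * r ≠ z := by
    intro n z h
    apply hval n z
    rw [← hr]
    exact_mod_cast congrArg (fun t : ℚ => (t : ℝ)) h
  have h5 := hmain r hcond U hUap N
  -- variation
  have hV : (V b U N : ℝ) ≤ |(u0 : ℝ)| + (Q1 * b + |B|) * (mis b x m q v N : ℝ) := by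
    have e0 : U 0 = u0 := by simp [hU, hu0, W]
    have e1 : ∀ k : ℕ, dlt b U (k + 1) =
        ∑ j ∈ range (m + 1), q j * digit b x (k + 1 + j) - v (k + 1) := by
      intro k
      simp only [dlt, hU, W]
      have : ∀ j : ℕ, ⌊(b : ℝ) ^ (k + 1 + j) * x⌋ =
          b * ⌊(b : ℝ) ^ (k + j) * x⌋ + digit b x (k + 1 + j) := by
        intro j
        rw [show k + 1 + j = (k + j) + 1 by omega]
        exact floor_succ hb x (k + j)
      simp only [this, mul_add, Finset.sum_add_distrib]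
      rw [mul_sub, Finset.mul_sum]
      have e : ∀ j : ℕ, q j * ((b : ℤ) * ⌊(b : ℝ) ^ (k + j) * x⌋) =
          (b : ℤ) * (q j * ⌊(b : ℝ) ^ (k + j) * x⌋) := fun j => by ring
      simp only [e]
      ring
    have h6 : V b U N = |u0| + ∑ k ∈ range N,
        |∑ j ∈ range (m + 1), q j * digit b x (k + 1 + j) - v (k + 1)| := by
      unfold V
      rw [Finset.sum_range_succ', add_comm]
      congr 1
      · rw [← e0]; rfl
      · exact Finset.sum_congr rfl fun k _ => by rw [e1 k]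
    have h7 : (V b U N : ℝ) = |(u0 : ℝ)| + ∑ k ∈ range N,
        |∑ j ∈ range (m + 1), (q j : ℝ) * (digit b x (k + 1 + j) : ℝ) - (v (k + 1) : ℝ)| := by
      rw [h6]; push_cast; rfl
    rw [h7]
    apply add_le_add le_rfl
    have h8 : ∑ k ∈ range N,
        |∑ j ∈ range (m + 1), (q j : ℝ) * (digit b x (k + 1 + j) : ℝ) - (v (k + 1) : ℝ)| =
        ∑ k ∈ Icc 1 N,
          |∑ j ∈ range (m + 1), (q j : ℝ) * (digit b x (k + j) : ℝ) - (v k : ℝ)| := by
      rw [Finset.range_eq_Ico, Finset.sum_Ico_add' (fun k =>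
        |∑ j ∈ range (m + 1), (q j : ℝ) * (digit b x (k + j) : ℝ) - (v k : ℝ)|) 0 N 1]
      apply Finset.sum_congr _ fun _ _ => rfl
      ext k
      simp only [Finset.mem_Ico, Finset.mem_Icc]
      omega
    rw [h8]
    have h9 : ∑ k ∈ Icc 1 N,
          |∑ j ∈ range (m + 1), (q j : ℝ) * (digit b x (k + j) : ℝ) - (v k : ℝ)| ≤
        ∑ k ∈ (Icc 1 N).filter (fun k : ℕ =>
          ∑ j ∈ range (m + 1), q j * digit b x (k + j) ≠ v k), (Q1 * b + |B|) := by
      rw [Finset.sum_filter]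
      apply Finset.sum_le_sum
      intro k _
      split_ifs with hk
      · refine (abs_sub _ _).trans (add_le_add ?_ ((hvB k).trans hB0))
        refine (Finset.abs_sum_le_sum_abs _ _).trans ?_
        rw [hQ1, Finset.sum_mul]
        apply Finset.sum_le_sum
        intro j _
        rw [abs_mul]
        apply mul_le_mul_of_nonneg_left _ (abs_nonneg _)
        have h10 := digit_nonneg hb x (k + j)
        have h11 := (digit_lt hb x (k + j)).le
        rw [abs_of_nonneg (by exact_mod_cast h10)]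
        exact_mod_cast h11
      · push Not at hk
        have : ∑ j ∈ range (m + 1), (q j : ℝ) * (digit b x (k + j) : ℝ) = (v k : ℝ) := by
          exact_mod_cast congrArg (fun t : ℤ => (t : ℝ)) hk
        rw [this]; simp
    refine h9.trans ?_
    rw [Finset.sum_const, nsmul_eq_mul]
    unfold mis
    rw [mul_comm]
  have hV0 : (0 : ℝ) ≤ (V b U N : ℝ) := by exact_mod_cast V_nonneg b U N
  have hm0 : (0 : ℝ) ≤ (mis b x m q v N : ℝ) := by positivity
  have hden' : (r.den : ℝ) ≤ (b : ℝ) ^ (k₀ + T) := by exact_mod_cast hden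
  have h12 : 1 + (V b U N : ℝ) ≤ C3 * (1 + (mis b x m q v N : ℝ)) := by
    have := abs_nonneg (u0 : ℝ)
    have := abs_nonneg B
    have : 0 ≤ Q1 * b := by positivity
    rw [hC3]; nlinarith
  have h13 : (r.den : ℝ) * (1 + (V b U N : ℝ)) ≤
      (b : ℝ) ^ (k₀ + T) * (C3 * (1 + (mis b x m q v N : ℝ))) :=
    mul_le_mul hden' h12 (by linarith) (by positivity)
  have hKd : K ≤ (K + 1) ^ P.natDegree := by
    calc K ≤ (K + 1) ^ 1 := by rw [pow_one]; linarith
      _ ≤ (K + 1) ^ P.natDegree := pow_le_pow_right₀ (by linarith) hd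
  calc (N : ℝ) ≤ N + 1 := by linarith
    _ ≤ K * ((r.den : ℝ) * (1 + (V b U N : ℝ))) ^ P.natDegree := h5
    _ ≤ (K + 1) ^ P.natDegree *
        ((b : ℝ) ^ (k₀ + T) * (C3 * (1 + (mis b x m q v N : ℝ)))) ^ P.natDegree := by
        apply mul_le_mul hKd _ (by positivity) (by positivity)
        exact pow_le_pow_left₀ (by positivity) h13 _
    _ = _ := by rw [← mul_pow]; congr 1; ring

end Pool.Agent.W155.PerHam
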