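import Pool.Agent.W155.PerHam2
import Pool.Agent.H820R3.DG.Real

/-!
The digits of irrational algebraic numbers integral over `ℤ[1/b]` and arbitrary eventually periodic
sequences.
-/

set_option autoImplicit false

namespace Pool.Agent.W155.PerHam

open Polynomial Finset

lemma two_le_natDegree (P : ℤ[X]) (hP : P ≠ 0) (x : ℝ) (hirr : Irrational x)
    (hx : aeval x P = 0) : 2 ≤ P.natDegree := by
  by_contra hcon
  push Not at hcon
  have h1 := eq_X_add_C_of_natDegree_le_one (show P.natDegree ≤ 1 by omega)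
  rw [h1] at hx
  simp only [map_add, map_mul, aeval_X, eq_intCast, map_intCast] at hx
  by_cases hc : P.coeff 1 = 0
  · have h2 : P.coeff 0 = 0 := by
      rw [hc] at hx
      simpa using hx
    apply hP
    rw [h1, hc, h2]; simp
  · apply hirr
    refine ⟨-(P.coeff 0 : ℚ) / (P.coeff 1 : ℚ), ?_⟩
    have hc' : ((P.coeff 1 : ℤ) : ℝ) ≠ 0 := by exact_mod_cast hc
    push_cast
    rw [div_eq_iff hc']
    linarith

/-- the number of `1 ≤ k ≤ N` with `a_k ≠ v_k` -/
noncomputable def ham (b : ℕ) (x : ℝ) (v : ℕ → ℤ) (N : ℕ) : ℕ :=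
  ((Icc 1 N).filter (fun k : ℕ => digit b x k ≠ v k)).card

lemma mis_eq_ham (b : ℕ) (x : ℝ) (v : ℕ → ℤ) (N : ℕ) :
    mis b x 0 (fun _ => 1) v N = ham b x v N := by
  unfold mis ham
  simp

/-- digits different from `0` or from `b - 1` -/
lemma const_case (P : ℤ[X]) (hP : 2 ≤ P.natDegree) (x : ℝ) (hirr : Irrational x)
    (hx : aeval x P = 0) (b : ℕ) (hb : 2 ≤ b) :
    ∃ C : ℝ, 0 < C ∧ ∀ N : ℕ,
      (N : ℝ) ≤ (C * (1 + (ham b x (fun _ => 0) N : ℝ))) ^ P.natDegree ∧
      (N : ℝ) ≤ (C * (1 + (ham b x (fun _ => (b : ℤ) - 1) N : ℝ))) ^ P.natDegree := by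
  have hb2 : (2 : ℝ) ≤ b := by exact_mod_cast hb
  have hP0 : P ≠ 0 := by rintro rfl; simp at hP
  have hl0 : P.leadingCoeff ≠ 0 := leadingCoeff_ne_zero.mpr hP0
  have ha0 : 0 < |(P.leadingCoeff : ℝ)| := abs_pos.mpr (by exact_mod_cast hl0)
  set a : ℝ := |(P.leadingCoeff : ℝ)| with ha
  set c : ℝ := ((b : ℝ) - 1) / (2 * a) with hc
  have hc0 : 0 < c := by rw [hc]; apply div_pos <;> linarith
  obtain ⟨n1, hn1⟩ := Pool.Agent.H820R3.DG.deg_gcd hb P hP hirr hx 1 0 (one_dvd _) (one_dvd _) c hc0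
  have hcc : ((b : ℝ) - 1) * (1 : ℕ) / a - c = c := by
    rw [hc]; push_cast; field_simp; ring
  set C : ℝ := (n1 : ℝ) + 1 + (1 / c + 1) * (b - 1) with hC
  have hbm : (1 : ℝ) ≤ (b : ℝ) - 1 := by linarith
  have h1c : 0 < 1 / c := by positivity
  have hC1 : 1 ≤ C := by
    have : 0 ≤ (1 / c + 1) * ((b : ℝ) - 1) := by positivity
    have : (0 : ℝ) ≤ n1 := by positivity
    rw [hC]; linarith
  -- the general step
  have key : ∀ (N : ℕ) (s : ℝ) (h : ℕ), 0 ≤ s → s ≤ (b - 1) * h →
      (n1 ≤ N → c * N ≤ s ^ P.natDegree) → (N : ℝ) ≤ (C * (1 + (h : ℝ))) ^ P.natDegree := by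
    intro N s h hs0 hs hN
    have hh0 : (0 : ℝ) ≤ h := by positivity
    by_cases hle : n1 ≤ N
    · have h2 := hN hle
      have h3 : (N : ℝ) ≤ (1 / c) * s ^ P.natDegree := by
        rw [one_div, ← div_eq_inv_mul, le_div_iff₀ hc0]; linarith
      have h4 : 1 / c ≤ (1 / c + 1) ^ P.natDegree := by
        calc 1 / c ≤ (1 / c + 1) ^ 1 := by rw [pow_one]; linarith
          _ ≤ (1 / c + 1) ^ P.natDegree := pow_le_pow_right₀ (by linarith) (by omega)
      calc (N : ℝ) ≤ (1 / c) * s ^ P.natDegree := h3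
        _ ≤ (1 / c + 1) ^ P.natDegree * ((b - 1) * h) ^ P.natDegree :=
            mul_le_mul h4 (pow_le_pow_left₀ hs0 hs _) (by positivity) (by positivity)
        _ = ((1 / c + 1) * ((b - 1) * h)) ^ P.natDegree := (mul_pow _ _ _).symm
        _ ≤ _ := by
            apply pow_le_pow_left₀ (by positivity)
            have h5 : (1 / c + 1) * ((b : ℝ) - 1) ≤ C := by
              have : (0 : ℝ) ≤ n1 := by positivity
              rw [hC]; linarith
            calc (1 / c + 1) * (((b : ℝ) - 1) * h) = (1 / c + 1) * ((b : ℝ) - 1) * h := by ring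
              _ ≤ C * h := mul_le_mul_of_nonneg_right h5 hh0
              _ ≤ C * (1 + (h : ℝ)) := by nlinarith
    · have h6 : (N : ℝ) ≤ n1 := by exact_mod_cast (not_le.1 hle).le
      have h7 : (N : ℝ) ≤ C * (1 + (h : ℝ)) := by
        have : 0 ≤ (1 / c + 1) * ((b : ℝ) - 1) := by positivity
        have : (n1 : ℝ) ≤ C := by rw [hC]; linarith
        nlinarith
      have h8 : 1 ≤ C * (1 + (h : ℝ)) := by nlinarith
      calc (N : ℝ) ≤ (C * (1 + (h : ℝ))) ^ 1 := by rw [pow_one]; exact h7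
        _ ≤ _ := pow_le_pow_right₀ h8 (by omega)
  have hdig : ∀ k, Pool.Agent.H820R3.DG.digit b x k = digit b x k := by
    intro k
    unfold Pool.Agent.H820R3.DG.digit digit
    rw [mul_comm]
  refine ⟨C, by linarith, fun N => ⟨?_, ?_⟩⟩
  · apply key N ((∑ k ∈ Icc 1 N, Pool.Agent.H820R3.DG.digit b x k : ℤ) : ℝ)
    · simp only [hdig]
      have : 0 ≤ ∑ k ∈ Icc 1 N, digit b x k := Finset.sum_nonneg fun k _ => digit_nonneg hb x k
      exact_mod_cast this
    · simp only [hdig]
      have h9 : ∑ k ∈ Icc 1 N, digit b x k ≤ ((b : ℤ) - 1) * (ham b x (fun _ => 0) N : ℤ) := by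
        unfold ham
        calc ∑ k ∈ Icc 1 N, digit b x k
            ≤ ∑ k ∈ (Icc 1 N).filter (fun k : ℕ => digit b x k ≠ 0), ((b : ℤ) - 1) := by
              rw [Finset.sum_filter]
              apply Finset.sum_le_sum
              intro k _
              have := digit_lt hb x k
              split_ifs with h
              · omega
              · push Not at h; omega
          _ = _ := by rw [Finset.sum_const, nsmul_eq_mul, mul_comm]
      exact_mod_cast h9
    · intro h
      have := (hn1 N h).1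
      rwa [hcc] at this
  · apply key N ((∑ k ∈ Icc 1 N, ((b : ℤ) - 1 - Pool.Agent.H820R3.DG.digit b x k) : ℤ) : ℝ)
    · simp only [hdig]
      have : 0 ≤ ∑ k ∈ Icc 1 N, ((b : ℤ) - 1 - digit b x k) :=
        Finset.sum_nonneg fun k _ => by have := digit_lt hb x k; omega
      exact_mod_cast this
    · simp only [hdig]
      have h9 : ∑ k ∈ Icc 1 N, ((b : ℤ) - 1 - digit b x k) ≤
          ((b : ℤ) - 1) * (ham b x (fun _ => (b : ℤ) - 1) N : ℤ) := by
        unfold ham
        calc ∑ k ∈ Icc 1 N, ((b : ℤ) - 1 - digit b x k)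
            ≤ ∑ k ∈ (Icc 1 N).filter (fun k : ℕ => digit b x k ≠ (b : ℤ) - 1), ((b : ℤ) - 1) := by
              rw [Finset.sum_filter]
              apply Finset.sum_le_sum
              intro k _
              have := digit_nonneg hb x k
              split_ifs with h
              · omega
              · push Not at h; omega
          _ = _ := by rw [Finset.sum_const, nsmul_eq_mul, mul_comm]
      exact_mod_cast h9
    · intro h
      have := (hn1 N h).2
      rwa [hcc] at this

lemma per_mul {v : ℕ → ℤ} {k₀ T : ℕ} (hp : ∀ k, k₀ ≤ k → v (k + T) = v k) (k : ℕ) (hk : k₀ ≤ k)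
    (j : ℕ) : v (k + T * j) = v k := by
  induction j with
  | zero => simp
  | succ j ih =>
    rw [show k + T * (j + 1) = (k + T * j) + T by ring, hp _ (by omega), ih]

/-- digit sequences with a `b`-adic rational value are eventually `0` or eventually `b - 1` -/
lemma terminating (b : ℕ) (hb : 2 ≤ b) (v : ℕ → ℤ) (hv0 : ∀ k, 0 ≤ v k) (hvb : ∀ k, v k < b)
    (k₀ T : ℕ) (hT : 1 ≤ T) (hp : ∀ k, k₀ ≤ k → v (k + T) = v k) (n : ℕ) (z : ℤ)
    (h : (b : ℝ) ^ n * tl b v 0 = z) :
    (∀ k, k₀ ≤ k → v k = 0) ∨ (∀ k, k₀ ≤ k → v k = (b : ℤ) - 1) := by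
  have hb2 : (2 : ℝ) ≤ b := by exact_mod_cast hb
  have hvB : ∀ k, |(v k : ℝ)| ≤ (b : ℝ) - 1 := by
    intro k
    have h1 := hv0 k
    have h2 := hvb k
    rw [abs_of_nonneg (by exact_mod_cast h1)]
    have : v k ≤ (b : ℤ) - 1 := by omega
    exact_mod_cast this
  have htl0 : ∀ K, 0 ≤ tl b v K := by
    intro K
    unfold tl
    apply tsum_nonneg
    intro k
    apply div_nonneg _ (by positivity)
    exact_mod_cast hv0 _
  have htl1 : ∀ K, tl b v K ≤ 1 := by
    intro K
    have h1 := abs_tl_le hb hvB K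
    rw [div_self (by linarith)] at h1
    exact (le_abs_self _).trans h1
  -- the tail after the place `n` is an integer
  have h1 := tl_eq hb hvB n
  rw [h] at h1
  have h2 : tl b v n = ((z - W b v n : ℤ) : ℝ) := by push_cast; linarith
  have h3 : z - W b v n = 0 ∨ z - W b v n = 1 := by
    have h4 := htl0 n
    have h5 := htl1 n
    rw [h2] at h4 h5
    have h6 : (0 : ℤ) ≤ z - W b v n := by exact_mod_cast h4
    have h7 : z - W b v n ≤ 1 := by exact_mod_cast h5
    omega
  rcases h3 with h3 | h3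
  · left
    have h4 : ∀ j, tl b v (n + j) = 0 := by
      intro j
      induction j with
      | zero => rw [add_zero, h2, h3]; simp
      | succ j ih =>
        have h5 := tl_rec hb hvB (n + j)
        rw [ih, mul_zero] at h5
        have h6 := htl0 (n + (j + 1))
        have h7 : (0 : ℝ) ≤ v (n + j + 1) := by exact_mod_cast hv0 _
        have : n + j + 1 = n + (j + 1) := by ring
        rw [this] at h5 h7
        linarith
    have h5 : ∀ j, v (n + j + 1) = 0 := by
      intro j
      have h6 := tl_rec hb hvB (n + j)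
      have : n + j + 1 = n + (j + 1) := by ring
      rw [h4 j, this, h4 (j + 1), mul_zero, add_zero] at h6
      rw [this]
      exact_mod_cast h6.symm
    intro k hk
    rw [← per_mul hp k hk (n + 1)]
    have h6 : n + 1 ≤ T * (n + 1) := Nat.le_mul_of_pos_left _ hT
    obtain ⟨j, hj⟩ := Nat.exists_eq_add_of_le (show n + 1 ≤ k + T * (n + 1) by omega)
    rw [hj, show n + 1 + j = n + j + 1 by ring]
    exact h5 j
  · right
    have h4 : ∀ j, tl b v (n + j) = 1 ∧ v (n + j + 1) = (b : ℤ) - 1 := by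
      intro j
      have hstep : ∀ K, tl b v K = 1 → tl b v (K + 1) = 1 ∧ v (K + 1) = (b : ℤ) - 1 := by
        intro K hK
        have h5 := tl_rec hb hvB K
        rw [hK, mul_one] at h5
        have h6 := htl1 (K + 1)
        have h7 : v (K + 1) ≤ (b : ℤ) - 1 := by have := hvb (K + 1); omega
        have h8 : (v (K + 1) : ℝ) ≤ (b : ℝ) - 1 := by exact_mod_cast h7
        have h9 : (v (K + 1) : ℝ) = (b : ℝ) - 1 := by linarith
        refine ⟨by linarith, ?_⟩
        exact_mod_cast h9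
      have h5 : ∀ j, tl b v (n + j) = 1 := by
        intro j
        induction j with
        | zero => rw [add_zero, h2, h3]; simp
        | succ j ih => exact (hstep (n + j) ih).1
      exact ⟨h5 j, (hstep _ (h5 j)).2⟩
    intro k hk
    rw [← per_mul hp k hk (n + 1)]
    have h6 : n + 1 ≤ T * (n + 1) := Nat.le_mul_of_pos_left _ hT
    obtain ⟨j, hj⟩ := Nat.exists_eq_add_of_le (show n + 1 ≤ k + T * (n + 1) by omega)
    rw [hj, show n + 1 + j = n + j + 1 by ring]
    exact (h4 j).2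

lemma ham_le (b : ℕ) (x : ℝ) (v w : ℕ → ℤ) (k₀ N : ℕ) (h : ∀ k, k₀ ≤ k → v k = w k) :
    ham b x w N ≤ ham b x v N + k₀ := by
  classical
  unfold ham
  calc ((Icc 1 N).filter (fun k : ℕ => digit b x k ≠ w k)).card
      ≤ (((Icc 1 N).filter (fun k : ℕ => digit b x k ≠ v k)) ∪ range k₀).card := by
        apply Finset.card_le_card
        intro k hk
        rw [Finset.mem_filter] at hk
        rw [Finset.mem_union, Finset.mem_filter, Finset.mem_range]
        by_cases hk0 : k < k₀
        · exact Or.inr hk0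
        · left
          refine ⟨hk.1, ?_⟩
          rw [h k (by omega)]
          exact hk.2
    _ ≤ _ := by
        refine (Finset.card_union_le _ _).trans ?_
        rw [Finset.card_range]

/-- **Digits.** -/
theorem digits (P : ℤ[X]) (hP : P ≠ 0) (x : ℝ) (hirr : Irrational x) (hx : aeval x P = 0)
    (b : ℕ) (hb : 2 ≤ b) (n₀ : ℕ) (ha : P.leadingCoeff ∣ (b : ℤ) ^ n₀) :
    ∃ C : ℝ, 0 < C ∧ ∀ (v : ℕ → ℤ) (k₀ T : ℕ), 1 ≤ T → (∀ k, k₀ ≤ k → v (k + T) = v k) →
      ∀ N : ℕ, (N : ℝ) ≤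
        (C * (b : ℝ) ^ (k₀ + T) * (1 + (ham b x v N : ℝ))) ^ P.natDegree := by
  have hd2 := two_le_natDegree P hP x hirr hx
  have hb2 : (2 : ℝ) ≤ b := by exact_mod_cast hb
  obtain ⟨C1, hC1, h1⟩ := relations P (by omega) x hx b hb 0 (fun _ => 1) b
  obtain ⟨C2, hC2, h2⟩ := const_case P hd2 x hirr hx b hb
  refine ⟨C1 + C2, by positivity, ?_⟩
  intro v k₀ T hT hp N
  -- replace `v` by a sequence of digits
  set w : ℕ → ℤ := fun k => if 0 ≤ v k ∧ v k < b then v k else 0 with hw
  have hw0 : ∀ k, 0 ≤ w k := by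
    intro k
    simp only [hw]
    split_ifs with h
    · exact h.1
    · exact le_rfl
  have hwb : ∀ k, w k < b := by
    intro k
    simp only [hw]
    split_ifs with h
    · exact h.2
    · omega
  have hwp : ∀ k, k₀ ≤ k → w (k + T) = w k := by
    intro k hk
    simp only [hw, hp k hk]
  have hvw : ham b x w N ≤ ham b x v N := by
    unfold ham
    apply Finset.card_le_card
    intro k hk
    rw [Finset.mem_filter] at hk ⊢
    refine ⟨hk.1, fun h => hk.2 ?_⟩
    simp only [hw]
    rw [if_pos ⟨by rw [← h]; exact digit_nonneg hb x k, by rw [← h]; exact digit_lt hb x k⟩]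
    exact h
  have hbk : (1 : ℝ) ≤ (b : ℝ) ^ (k₀ + T) := one_le_pow₀ (by linarith)
  have hhw : (0 : ℝ) ≤ (ham b x w N : ℝ) := by positivity
  have hhv : (ham b x w N : ℝ) ≤ (ham b x v N : ℝ) := by exact_mod_cast hvw
  -- reduction to `w` with one of the two constants
  have hred : (N : ℝ) ≤ (C1 * (b : ℝ) ^ (k₀ + T) * (1 + (ham b x w N : ℝ))) ^ P.natDegree ∨
      (N : ℝ) ≤ (C2 * (b : ℝ) ^ (k₀ + T) * (1 + (ham b x w N : ℝ))) ^ P.natDegree := by
    by_cases hval : ∀ (n : ℕ) (z : ℤ), (b : ℝ) ^ n * (P.leadingCoeff : ℝ) * tl b w 0 ≠ z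
    · left
      have hwB : ∀ k, |(w k : ℝ)| ≤ (b : ℝ) := by
        intro k
        have h3 := hw0 k
        have h4 := (hwb k).le
        rw [abs_of_nonneg (by exact_mod_cast h3)]
        exact_mod_cast h4
      have h3 := h1 w k₀ T hT hwB hwp hval N
      rwa [mis_eq_ham] at h3
    · right
      push Not at hval
      obtain ⟨n, z, hz⟩ := hval
      obtain ⟨c, hc⟩ := ha
      have hz' : (b : ℝ) ^ (n + n₀) * tl b w 0 = ((c * z : ℤ) : ℝ) := by
        have h3 : (b : ℝ) ^ n₀ = (P.leadingCoeff : ℝ) * c := by exact_mod_cast hc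
        push_cast
        rw [← hz, pow_add, h3]; ring
      -- the two cases
      have hfin : ∀ e : ℤ, (∀ k, k₀ ≤ k → w k = e) →
          (N : ℝ) ≤ (C2 * (1 + (ham b x (fun _ => e) N : ℝ))) ^ P.natDegree →
          (N : ℝ) ≤ (C2 * (b : ℝ) ^ (k₀ + T) * (1 + (ham b x w N : ℝ))) ^ P.natDegree := by
        intro e he hN
        refine hN.trans (pow_le_pow_left₀ (by positivity) ?_ _)
        rw [mul_assoc]
        apply mul_le_mul_of_nonneg_left _ hC2.le
        have h3 : (ham b x (fun _ => e) N : ℝ) ≤ (ham b x w N : ℝ) + k₀ := by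
          exact_mod_cast ham_le b x w (fun _ => e) k₀ N he
        have h4 : (k₀ : ℝ) + 1 ≤ (b : ℝ) ^ (k₀ + T) := by
          have h5 : k₀ + 1 ≤ b ^ k₀ := Nat.lt_pow_self (by omega)
          have h6 : b ^ k₀ ≤ b ^ (k₀ + T) := Nat.pow_le_pow_right (by omega) (by omega)
          exact_mod_cast h5.trans h6
        have h7 : (0 : ℝ) ≤ k₀ := by positivity
        nlinarith
      rcases terminating b hb w hw0 hwb k₀ T hT hwp (n + n₀) (c * z) hz' with h3 | h3
      · exact hfin 0 h3 (h2 N).1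
      · exact hfin ((b : ℤ) - 1) h3 (h2 N).2
  have hmono : ∀ c : ℝ, 0 < c → c ≤ C1 + C2 →
      (c * (b : ℝ) ^ (k₀ + T) * (1 + (ham b x w N : ℝ))) ^ P.natDegree ≤
        ((C1 + C2) * (b : ℝ) ^ (k₀ + T) * (1 + (ham b x v N : ℝ))) ^ P.natDegree := by
    intro c hc hcc
    apply pow_le_pow_left₀ (by positivity)
    apply mul_le_mul _ (by linarith) (by positivity) (by positivity)
    exact mul_le_mul_of_nonneg_right hcc (by positivity)
  rcases hred with h | h
  · exact h.trans (hmono C1 hC1 (by linarith))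
  · exact h.trans (hmono C2 hC2 (by linarith))

end Pool.Agent.W155.PerHam
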